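import Pool.Agent.U285.LA.Upper

/-!
# From forms and points to a simple arrangement with many sides
-/

namespace Pool.Agent.U285.LA

open Set

variable {ι : Type} {A : Finset (Set Plane)} {f : ι → Form}

/-- two linear forms on `ℝ³` have a common nonzero zero -/
theorem exists_common_zero (φ ψ : Form) : ∃ v : Fin 3 → ℝ, v ≠ 0 ∧ φ v = 0 ∧ ψ v = 0 := by
  let Φ : (Fin 3 → ℝ) →ₗ[ℝ] (Fin 2 → ℝ) := LinearMap.pi ![φ, ψ]
  have h0 : ∀ v, Φ v 0 = φ v := fun v => rfl
  have h1 : ∀ v, Φ v 1 = ψ v := fun v => rfl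
  have hninj : ¬ Function.Injective Φ := by
    intro h
    have := LinearMap.finrank_le_finrank_of_injective h
    simp at this
  rw [← LinearMap.ker_eq_bot, LinearMap.ker_eq_bot'] at hninj
  push Not at hninj
  obtain ⟨v, hv, hne⟩ := hninj
  exact ⟨v, hne, by rw [← h0, hv]; rfl, by rw [← h1, hv]; rfl⟩

theorem SimpleForms.exists_third [Fintype ι] (h3 : 3 ≤ Fintype.card ι) (x y : ι) :
    ∃ z, z ≠ x ∧ z ≠ y := by
  classical
  by_contra hc
  push Not at hc
  have hsub : (Finset.univ : Finset ι) ⊆ {x, y} := by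
    intro z _
    by_cases hz : z = x
    · simp [hz]
    · simp [hc z hz]
  have := Finset.card_le_card hsub
  have h2 := Finset.card_le_two (a := x) (b := y)
  rw [Finset.card_univ] at this
  omega

theorem SimpleForms.inj [Fintype ι] (hs : SimpleForms f) (h3 : 3 ≤ Fintype.card ι) :
    Function.Injective fun i => lineOf (f i) := by
  intro x y hxy
  by_contra hne
  obtain ⟨z, hzx, hzy⟩ := SimpleForms.exists_third h3 x y
  obtain ⟨v, hv, h1, h2⟩ := exists_common_zero (f x) (f z)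
  have hx : Projectivization.mk ℝ v hv ∈ lineOf (f x) := (mk_mem_lineOf _ _ _).2 h1
  have hy : Projectivization.mk ℝ v hv ∈ lineOf (f y) := by
    have : lineOf (f x) = lineOf (f y) := hxy
    rwa [← this]
  rw [mk_mem_lineOf] at hy
  exact hv (hs x y z hne (Ne.symm hzx) (Ne.symm hzy) v h1 hy h2)

theorem SimpleForms.ne_zero [Fintype ι] (hs : SimpleForms f) (h3 : 3 ≤ Fintype.card ι) (x : ι) :
    f x ≠ 0 := by
  classical
  intro h0
  obtain ⟨y, hyx, _⟩ := SimpleForms.exists_third h3 x x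
  obtain ⟨z, hzx, hzy⟩ := SimpleForms.exists_third h3 x y
  obtain ⟨v, hv, h1, h2⟩ := exists_common_zero (f y) (f z)
  exact hv (hs x y z (Ne.symm hyx) (Ne.symm hzx) (Ne.symm hzy) v (by rw [h0]; rfl) h1 h2)

/-- a point beyond exactly one wall gives a facet -/
theorem mem_facets_of_flip (v p : Fin 3 → ℝ) (l : ι) (h1 : f l v * f l p < 0)
    (h2 : ∀ i, i ≠ l → 0 < f i v * f i p) : l ∈ facets f v := by
  refine ⟨(f l p ^ 2) • v - (f l v * f l p) • p, ?_, fun i hi => ?_⟩
  · rw [map_sub, map_smul, map_smul, smul_eq_mul, smul_eq_mul]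
    ring
  · rw [map_sub, map_smul, map_smul, smul_eq_mul, smul_eq_mul]
    have e : f i v * (f l p ^ 2 * f i v - f l v * f l p * f i p) =
        (f l p * f i v) ^ 2 + (-(f l v * f l p)) * (f i v * f i p) := by ring
    rw [e]
    have := mul_pos (neg_pos.2 h1) (h2 i hi)
    have := sq_nonneg (f l p * f i v)
    linarith

theorem mem_excess [Fintype ι] (k : ℕ) (h3 : 3 ≤ Fintype.card ι)
    (hs : SimpleForms f) (P : Fin k → (Fin 3 → ℝ)) (hP : ∀ i x, f x (P i) ≠ 0)
    (hdist : ∀ i j, i ≠ j → ∃ x y, (f x (P i) * f x (P j)) * (f y (P i) * f y (P j)) < 0)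
    (S : Fin k → Finset ι)
    (hS : ∀ i, ∀ x ∈ S i, ∃ v, f x (P i) * f x v < 0 ∧ ∀ y, y ≠ x → 0 < f y (P i) * f y v)
    (hsum : 2 * (k : ℤ) * (k - 1) ≤ (∑ i, ((S i).card : ℤ)) - (Fintype.card ι : ℤ)) :
    2 * (k : ℤ) * (k - 1) ∈ excessSet k := by
  classical
  let A : Finset (Set Plane) := Finset.univ.image fun i => lineOf (f i)
  have hpres : Pres A f := by
    refine ⟨hs.ne_zero h3, hs.inj h3, fun L => ?_⟩
    simp only [A, Finset.mem_image, Finset.mem_univ, true_and]
    exact ⟨fun ⟨i, hi⟩ => ⟨i, hi.symm⟩, fun ⟨i, hi⟩ => ⟨i, hi.symm⟩⟩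
  have hcard : A.card = Fintype.card ι := by
    rw [Finset.card_image_of_injective _ (hs.inj h3), Finset.card_univ]
  have hnt : Nontrivial ι := by
    rw [← Fintype.one_lt_card_iff_nontrivial]
    omega
  have hsimple : IsSimple A := by
    intro L hL M hM N hN hLM hLN hMN
    obtain ⟨x, rfl⟩ := (hpres.mem L).1 hL
    obtain ⟨y, rfl⟩ := (hpres.mem M).1 hM
    obtain ⟨z, rfl⟩ := (hpres.mem N).1 hN
    rw [Set.eq_empty_iff_forall_notMem]
    rintro p ⟨⟨h1, h2⟩, h3⟩
    exact p.rep_nonzero (hs x y z (fun e => hLM (by rw [e])) (fun e => hLN (by rw [e]))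
      (fun e => hMN (by rw [e])) p.rep h1 h2 h3)
  have harr : IsArrangement A := by
    refine ⟨fun L hL => ?_, by rw [hcard]; exact h3, ?_⟩
    · obtain ⟨x, rfl⟩ := (hpres.mem L).1 hL
      exact ⟨f x, hs.ne_zero h3 x, rfl⟩
    · rintro ⟨p, hp⟩
      obtain ⟨x⟩ : Nonempty ι := inferInstance
      obtain ⟨y, hyx, _⟩ := SimpleForms.exists_third h3 x x
      obtain ⟨z, hzx, hzy⟩ := SimpleForms.exists_third h3 x y
      exact p.rep_nonzero (hs x y z (Ne.symm hyx) (Ne.symm hzx) (Ne.symm hzy) p.rep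
        (hp _ ((hpres.mem _).2 ⟨x, rfl⟩)) (hp _ ((hpres.mem _).2 ⟨y, rfl⟩))
        (hp _ ((hpres.mem _).2 ⟨z, rfl⟩)))
  have hPne : ∀ i, P i ≠ 0 := by
    intro i h0
    obtain ⟨x⟩ : Nonempty ι := inferInstance
    have := hP i x
    rw [h0, map_zero] at this
    exact this rfl
  have hinj : Function.Injective fun i => cellIn ⊤ f (P i) := by
    intro i j hij
    by_contra hne
    obtain ⟨x, y, hxy⟩ := hdist i j hne
    have := (cell_eq_iff f (P i) (P j) (hPne j) (hP j)).1 hij x y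
    linarith
  have hface : ∀ i, IsFace A (cellIn ⊤ f (P i)) := by
    intro i
    rw [hpres.isFace_iff]
    exact ⟨P i, hPne i, hP i, rfl⟩
  have hle : ∀ i, ((S i).card : ℤ) ≤ (sides A (cellIn ⊤ f (P i)) : ℤ) := by
    intro i
    rw [hpres.sides_eq (P i) (hP i)]
    have hsub : ((S i : Finset ι) : Set ι) ⊆ facets f (P i) := by
      intro x hx
      obtain ⟨v, h1, h2⟩ := hS i x hx
      exact mem_facets_of_flip (P i) v x h1 h2
    have := Set.ncard_le_ncard hsub (Set.toFinite _)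
    rw [Set.ncard_coe_finset] at this
    exact_mod_cast this
  refine ⟨A, harr, hsimple, fun i => cellIn ⊤ f (P i), hinj, hface, ?_⟩
  apply le_antisymm
  · calc 2 * (k : ℤ) * (k - 1) ≤ (∑ i, ((S i).card : ℤ)) - (Fintype.card ι : ℤ) := hsum
      _ ≤ _ := by
        rw [hcard]
        have := Finset.sum_le_sum fun i (_ : i ∈ Finset.univ) => hle i
        linarith
  · exact upper_bound k harr hsimple _ hinj hface

end Pool.Agent.U285.LA
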