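import Pool.Agent.U285.LA.Perturb

/-!
# The configuration of points and lines

The points are `P i = (1, i, i²)`.  For every pair of points we take four lines close to the
line joining them; the local picture at every point is that of strips tangent to a strictly
convex curve.
-/

namespace Pool.Agent.U285.LA

open Set Filter Topology

/-- the parameter of the `i`-th point -/
noncomputable def tt {k : ℕ} (i : Fin k) : ℝ := (i : ℕ)

theorem tt_inj {k : ℕ} {i j : Fin k} (h : i ≠ j) : tt i ≠ tt j := by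
  unfold tt
  intro h'
  exact h (Fin.ext (by exact_mod_cast h'))

theorem tt_nonneg {k : ℕ} (i : Fin k) : 0 ≤ tt i := by unfold tt; positivity

theorem tt_lt {k : ℕ} (i : Fin k) : tt i < k := by
  unfold tt
  exact_mod_cast i.2

/-- the points -/
noncomputable def PP {k : ℕ} (i : Fin k) : Fin 3 → ℝ := ![1, tt i, tt i ^ 2]

/-- the constant making the curve convex and centrally symmetric around the origin -/
noncomputable def cc {k : ℕ} (i j : Fin k) : ℝ := 4 * (k : ℝ) ^ 2 + 1 + (tt i + tt j) ^ 2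

theorem cc_pos {k : ℕ} (i j : Fin k) : 0 < cc i j := by unfold cc; positivity

theorem cc_symm {k : ℕ} (i j : Fin k) : cc i j = cc j i := by unfold cc; ring

/-- the touching vector -/
noncomputable def uu {k : ℕ} (i j : Fin k) : Fin 3 → ℝ :=
  ![0, -2 * (tt i + tt j), 4 * (k : ℝ) ^ 2 + 1 - (tt i + tt j) ^ 2]

theorem uu_symm {k : ℕ} (i j : Fin k) : uu i j = uu j i := by
  unfold uu
  rw [add_comm (tt i) (tt j)]

/-- the line through two of the points -/
noncomputable def AA {k : ℕ} (i j : Fin k) : Form :=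
  (cc i j)⁻¹ • ((tt i * tt j) • LinearMap.proj 0 - (tt i + tt j) • LinearMap.proj 1 +
    LinearMap.proj 2)

theorem AA_apply {k : ℕ} (i j : Fin k) (v : Fin 3 → ℝ) :
    AA i j v = (cc i j)⁻¹ * (tt i * tt j * v 0 - (tt i + tt j) * v 1 + v 2) := by
  simp only [AA, LinearMap.smul_apply, LinearMap.add_apply, LinearMap.sub_apply,
    LinearMap.proj_apply, smul_eq_mul]

theorem AA_symm {k : ℕ} (i j : Fin k) : AA i j = AA j i := by
  unfold AA
  rw [cc_symm, add_comm (tt i) (tt j), mul_comm (tt i) (tt j)]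

theorem AA_PP {k : ℕ} (i j m : Fin k) :
    AA i j (PP m) = (cc i j)⁻¹ * ((tt m - tt i) * (tt m - tt j)) := by
  rw [AA_apply]
  simp only [PP, Matrix.cons_val_zero, Matrix.cons_val_one, Matrix.cons_val]
  ring

theorem AA_PP_left {k : ℕ} (i j : Fin k) : AA i j (PP i) = 0 := by
  rw [AA_PP]
  ring

theorem AA_PP_right {k : ℕ} (i j : Fin k) : AA i j (PP j) = 0 := by
  rw [AA_PP]
  ring

theorem AA_PP_ne {k : ℕ} {i j m : Fin k} (h1 : m ≠ i) (h2 : m ≠ j) : AA i j (PP m) ≠ 0 := by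
  rw [AA_PP]
  exact mul_ne_zero (inv_ne_zero (cc_pos i j).ne')
    (mul_ne_zero (sub_ne_zero.2 (tt_inj h1)) (sub_ne_zero.2 (tt_inj h2)))

theorem AA_uu {k : ℕ} (i j : Fin k) : AA i j (uu i j) = 1 := by
  rw [AA_apply]
  have h := (cc_pos i j).ne'
  have e : tt i * tt j * uu i j 0 - (tt i + tt j) * uu i j 1 + uu i j 2 = cc i j := by
    simp only [uu, cc, Matrix.cons_val_zero, Matrix.cons_val_one, Matrix.cons_val]
    ring
  rw [e, inv_mul_cancel₀ h]

theorem AA_uu_abs {k : ℕ} (i j m : Fin k) (h : j ≠ m) : |AA i m (uu i j)| < 1 := by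
  rw [AA_apply, abs_lt]
  have hc := cc_pos i m
  have e : tt i * tt m * uu i j 0 - (tt i + tt m) * uu i j 1 + uu i j 2 =
      2 * (tt i + tt j) * (tt i + tt m) + (4 * (k : ℝ) ^ 2 + 1) - (tt i + tt j) ^ 2 := by
    simp only [uu, Matrix.cons_val_zero, Matrix.cons_val_one, Matrix.cons_val]
    ring
  rw [e, inv_mul_eq_div, lt_div_iff₀ hc, div_lt_one hc]
  have h1 := tt_nonneg i
  have h2 := tt_nonneg j
  have h3 := tt_nonneg m
  have h4 := tt_lt i
  have h5 := tt_lt j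
  have h6 := tt_lt m
  have hk : (0 : ℝ) ≤ k := Nat.cast_nonneg k
  constructor
  · unfold cc
    nlinarith [sq_nonneg (tt i + tt m), mul_nonneg (add_nonneg h1 h2) (add_nonneg h1 h3)]
  · unfold cc
    have h7 : tt j - tt m ≠ 0 := sub_ne_zero.2 (tt_inj h)
    have h8 : 0 < (tt j - tt m) ^ 2 := by positivity
    nlinarith

/-- the coordinate form dual to the first point -/
noncomputable def aa {k : ℕ} (i j : Fin k) : Form :=
  ((tt j - tt i)⁻¹ * tt j) • LinearMap.proj 0 - ((tt j - tt i)⁻¹) • LinearMap.proj 1 -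
    ((tt j - tt i)⁻¹ * (2 * (tt i + tt j))) • AA i j

theorem aa_apply {k : ℕ} (i j : Fin k) (v : Fin 3 → ℝ) :
    aa i j v = (tt j - tt i)⁻¹ * (tt j * v 0 - v 1 - 2 * (tt i + tt j) * AA i j v) := by
  simp only [aa, LinearMap.sub_apply, LinearMap.smul_apply, LinearMap.proj_apply, smul_eq_mul]
  ring

theorem aa_PP_left {k : ℕ} {i j : Fin k} (h : i ≠ j) : aa i j (PP i) = 1 := by
  rw [aa_apply, AA_PP_left]
  have h1 : tt j - tt i ≠ 0 := sub_ne_zero.2 (tt_inj h.symm)
  simp only [PP, Matrix.cons_val_zero, Matrix.cons_val_one]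
  rw [mul_one, mul_zero, sub_zero, inv_mul_cancel₀ h1]

theorem aa_PP_right {k : ℕ} (i j : Fin k) : aa i j (PP j) = 0 := by
  rw [aa_apply, AA_PP_right]
  simp only [PP, Matrix.cons_val_zero, Matrix.cons_val_one]
  ring

theorem aa_uu {k : ℕ} (i j : Fin k) : aa i j (uu i j) = 0 := by
  rw [aa_apply, AA_uu]
  simp only [uu, Matrix.cons_val_zero, Matrix.cons_val_one]
  ring

/-- The four lines near the line `P i P j` (for signs `σ`, `τ`). -/
noncomputable def HH {k : ℕ} (ε : ℝ) (i j : Fin k) (σ τ : ℝ) : Form :=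
  AA i j + ε • (σ • aa i j + τ • aa j i)

theorem HH_apply {k : ℕ} (ε : ℝ) (i j : Fin k) (σ τ : ℝ) (v : Fin 3 → ℝ) :
    HH ε i j σ τ v = AA i j v + ε * (σ * aa i j v + τ * aa j i v) := by
  simp only [HH, LinearMap.smul_apply, LinearMap.add_apply, smul_eq_mul]

theorem HH_symm {k : ℕ} (ε : ℝ) (i j : Fin k) (σ τ : ℝ) : HH ε i j σ τ = HH ε j i τ σ := by
  unfold HH
  rw [AA_symm, add_comm (σ • aa i j)]

theorem HH_left {k : ℕ} (ε : ℝ) {i j : Fin k} (h : i ≠ j) (σ τ : ℝ) :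
    HH ε i j σ τ (PP i) = ε * σ := by
  rw [HH_apply, AA_PP_left, aa_PP_left h, aa_PP_right]
  ring

theorem HH_right {k : ℕ} (ε : ℝ) {i j : Fin k} (h : i ≠ j) (σ τ : ℝ) :
    HH ε i j σ τ (PP j) = ε * τ := by
  rw [HH_symm, HH_left ε h.symm]

/-- the witness point beyond the side `(j, σ, τ)` of the `i`-th face -/
noncomputable def ww {k : ℕ} (ε : ℝ) (i j : Fin k) (σ τ : ℝ) : Fin 3 → ℝ :=
  PP i - (ε * σ) • uu i j - (σ * τ * ε ^ 2) • PP j

theorem form_ww {k : ℕ} (φ : Form) (ε : ℝ) (i j : Fin k) (σ τ : ℝ) :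
    φ (ww ε i j σ τ) = φ (PP i) - ε * σ * φ (uu i j) - σ * τ * ε ^ 2 * φ (PP j) := by
  simp [ww]

/-- the value on the witness of the four lines of the same pair -/
theorem HH_ww_same {k : ℕ} (ε : ℝ) {i j : Fin k} (h : i ≠ j) (σ τ σ' τ' : ℝ) :
    HH ε i j σ' τ' (PP i) * HH ε i j σ' τ' (ww ε i j σ τ) =
      ε * σ' * (ε * (σ' - σ) - ε ^ 3 * σ * τ * τ') := by
  have h1 : aa j i (uu i j) = 0 := by rw [uu_symm, aa_uu]
  rw [form_ww, HH_left ε h, HH_right ε h, HH_apply ε i j σ' τ' (uu i j), AA_uu, aa_uu, h1]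
  ring

/-- the value on the witness of the lines through `P i` of another pair -/
theorem HH_ww_adj {k : ℕ} (i j m : Fin k) (hjm : j ≠ m) (him : i ≠ m) (σ τ σ' τ' : ℝ)
    (hσ : σ ^ 2 = 1) (hσ' : σ' ^ 2 = 1) :
    ∀ᶠ ε in 𝓝[>] (0 : ℝ), 0 < HH ε i m σ' τ' (PP i) * HH ε i m σ' τ' (ww ε i j σ τ) := by
  have e : ∀ ε : ℝ, HH ε i m σ' τ' (PP i) * HH ε i m σ' τ' (ww ε i j σ τ) =
      ε ^ 2 * (1 - σ * σ' * AA i m (uu i j) -
        ε * σ' * (σ * (σ' * aa i m (uu i j) + τ' * aa m i (uu i j)) +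
          σ * τ * (AA i m (PP j) + ε * (σ' * aa i m (PP j) + τ' * aa m i (PP j))))) := by
    intro ε
    rw [form_ww, HH_left ε him, HH_apply, HH_apply]
    linear_combination (ε ^ 2) * hσ'
  have hlim : 0 < 1 - σ * σ' * AA i m (uu i j) := by
    have habs := AA_uu_abs i j m hjm
    have h1 : |σ * σ' * AA i m (uu i j)| < 1 := by
      rw [abs_mul, abs_mul]
      have h2 : |σ| = 1 := by
        rw [← sq_abs] at hσ
        nlinarith [abs_nonneg σ]
      have h3 : |σ'| = 1 := by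
        rw [← sq_abs] at hσ'
        nlinarith [abs_nonneg σ']
      rw [h2, h3]
      simpa using habs
    have := (abs_lt.1 h1).2
    linarith
  have hc : Continuous fun ε : ℝ => 1 - σ * σ' * AA i m (uu i j) -
        ε * σ' * (σ * (σ' * aa i m (uu i j) + τ' * aa m i (uu i j)) +
          σ * τ * (AA i m (PP j) + ε * (σ' * aa i m (PP j) + τ' * aa m i (PP j)))) := by
    fun_prop
  have hev := nhdsWithin_le_nhds (s := Ioi (0 : ℝ)) ((hc.tendsto 0).eventually
    (lt_mem_nhds (a := 0) (by simpa using hlim)))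
  filter_upwards [hev, self_mem_nhdsWithin] with ε h1 h2
  rw [e]
  have : (0 : ℝ) < ε := h2
  exact mul_pos (by positivity) h1

/-- the lines not near `P i` -/
theorem HH_ww_far {k : ℕ} (i j m m' : Fin k) (him : i ≠ m) (him' : i ≠ m') (σ τ σ' τ' : ℝ) :
    ∀ᶠ ε in 𝓝[>] (0 : ℝ), 0 < HH ε m m' σ' τ' (PP i) * HH ε m m' σ' τ' (ww ε i j σ τ) := by
  have hc : Continuous fun ε : ℝ =>
      HH ε m m' σ' τ' (PP i) * HH ε m m' σ' τ' (ww ε i j σ τ) := by
    simp only [form_ww, HH_apply]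
    fun_prop
  have h0 : 0 < HH 0 m m' σ' τ' (PP i) * HH 0 m m' σ' τ' (ww 0 i j σ τ) := by
    simp only [form_ww, HH_apply]
    have := AA_PP_ne him him'
    have e : (AA m m' (PP i) + 0 * (σ' * aa m m' (PP i) + τ' * aa m' m (PP i))) *
        (AA m m' (PP i) + 0 * (σ' * aa m m' (PP i) + τ' * aa m' m (PP i)) -
        0 * σ * (AA m m' (uu i j) + 0 * (σ' * aa m m' (uu i j) + τ' * aa m' m (uu i j))) -
        σ * τ * 0 ^ 2 * (AA m m' (PP j) + 0 * (σ' * aa m m' (PP j) + τ' * aa m' m (PP j)))) =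
        (AA m m' (PP i)) ^ 2 := by ring
    rw [e]
    positivity
  exact nhdsWithin_le_nhds ((hc.tendsto 0).eventually (lt_mem_nhds h0))

end Pool.Agent.U285.LA
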