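import Mathlib

/-!
# Arrangements of lines in the real projective plane: definitions

Everything is defined literally: the real projective plane with its quotient topology, lines,
arrangements, simple arrangements, faces (connected components of the complement), edges
(connected components of a line minus the other lines) and the number of sides of a face.
-/

namespace Pool.Agent.U285.LA

/-- The real projective plane: the space of lines through the origin of `ℝ³`. -/
abbrev Plane : Type := Projectivization ℝ (Fin 3 → ℝ)

/-- The usual topology of the projective plane: the quotient topology of `ℝ³ \ {0}`. -/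
noncomputable instance instTopPlane : TopologicalSpace Plane :=
  TopologicalSpace.coinduced (Projectivization.mk' ℝ : {v : Fin 3 → ℝ // v ≠ 0} → Plane)
    inferInstance

/-- A line of the projective plane: the zero set of a nonzero linear form. -/
def IsLine (L : Set Plane) : Prop :=
  ∃ φ : (Fin 3 → ℝ) →ₗ[ℝ] ℝ, φ ≠ 0 ∧ L = {p : Plane | φ p.rep = 0}

/-- An arrangement: a finite set of at least three (distinct) lines which do not all pass
through a common point. -/
structure IsArrangement (A : Finset (Set Plane)) : Prop where
  isLine : ∀ L ∈ A, IsLine L
  three_le : 3 ≤ A.card
  no_common_point : ¬ ∃ p : Plane, ∀ L ∈ A, p ∈ L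

/-- An arrangement is simple if no three of its lines pass through a common point. -/
def IsSimple (A : Finset (Set Plane)) : Prop :=
  ∀ L ∈ A, ∀ M ∈ A, ∀ N ∈ A, L ≠ M → L ≠ N → M ≠ N → L ∩ M ∩ N = ∅

/-- The complement of the union of the lines of `A`. -/
def complementSet (A : Finset (Set Plane)) : Set Plane := {p | ∀ L ∈ A, p ∉ L}

/-- The faces of `A`: the connected components of the complement of the union of its lines. -/
def IsFace (A : Finset (Set Plane)) (F : Set Plane) : Prop :=
  ∃ p ∈ complementSet A, F = connectedComponentIn (complementSet A) p

/-- The part of the line `L` which is on no other line of `A`. -/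
def openLine (A : Finset (Set Plane)) (L : Set Plane) : Set Plane :=
  {p | p ∈ L ∧ ∀ M ∈ A, M ≠ L → p ∉ M}

/-- The edges of `A`: the connected components of a line of `A` minus the other lines of `A`
(that is, the open segments into which the vertices cut the lines). -/
def IsEdge (A : Finset (Set Plane)) (e : Set Plane) : Prop :=
  ∃ L ∈ A, ∃ p ∈ openLine A L, e = connectedComponentIn (openLine A L) p

/-- The number of sides of a face `F`: the number of edges of `A` on the boundary of `F`.
The face `F` is a `q`-gon if `sides A F = q`. -/
noncomputable def sides (A : Finset (Set Plane)) (F : Set Plane) : ℕ :=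
  {e : Set Plane | IsEdge A e ∧ e ⊆ frontier F}.ncard

/-- The set of all values `q₁ + ⋯ + q_k - n` for `k` pairwise distinct faces (a `q₁`-gon, ...,
a `q_k`-gon) of a simple arrangement of `n` lines. Its supremum is `a(k)`. -/
def excessSet (k : ℕ) : Set ℤ :=
  {m | ∃ A : Finset (Set Plane), IsArrangement A ∧ IsSimple A ∧
    ∃ F : Fin k → Set Plane, Function.Injective F ∧ (∀ i, IsFace A (F i)) ∧
      m = (∑ i, (sides A (F i) : ℤ)) - (A.card : ℤ)}

end Pool.Agent.U285.LA
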