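import Pool.Agent.U285.LA.Config

/-!
# The lower bound
-/

namespace Pool.Agent.U285.LA

open Set Filter Topology

/-- the index set of the lines: a pair of points and two signs -/
abbrev Idx (k : ℕ) : Type := {e : Fin k × Fin k // e.1 < e.2} × (Bool × Bool)

/-- sign of a boolean -/
noncomputable def sg (b : Bool) : ℝ := if b then 1 else -1

theorem sg_sq (b : Bool) : sg b ^ 2 = 1 := by cases b <;> simp [sg]

theorem sg_mul_self (b : Bool) : sg b * sg b = 1 := by cases b <;> simp [sg]

theorem sg_ne {b c : Bool} (h : b ≠ c) : sg b = -sg c := by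
  cases b <;> cases c <;> simp_all [sg]

theorem sg_mul_cases (b c : Bool) : sg b * sg c = 1 ∨ sg b * sg c = -1 := by
  cases b <;> cases c <;> simp [sg]

/-- the forms of the lines -/
noncomputable def gF {k : ℕ} (ε : ℝ) (x : Idx k) : Form :=
  HH ε x.1.1.1 x.1.1.2 (sg x.2.1) (sg x.2.2)

/-- the lines near `P i` -/
def SS {k : ℕ} (i : Fin k) : Finset (Idx k) :=
  Finset.univ.filter fun x => x.1.1.1 = i ∨ x.1.1.2 = i

theorem mem_SS {k : ℕ} (i : Fin k) (x : Idx k) : x ∈ SS i ↔ x.1.1.1 = i ∨ x.1.1.2 = i := by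
  simp [SS]

/-- a line near `P i` seen from `P i` -/
def orient {k : ℕ} (i : Fin k) (x : Idx k) : Fin k × (Bool × Bool) :=
  if x.1.1.1 = i then (x.1.1.2, (x.2.1, x.2.2)) else (x.1.1.1, (x.2.2, x.2.1))

theorem orient_inj {k : ℕ} {i : Fin k} {x y : Idx k} (hx : x ∈ SS i) (hy : y ∈ SS i)
    (h : orient i x = orient i y) : x = y := by
  rw [mem_SS] at hx hy
  obtain ⟨⟨⟨a, b⟩, hab⟩, ⟨s, t⟩⟩ := x
  obtain ⟨⟨⟨c, d⟩, hcd⟩, ⟨s', t'⟩⟩ := y
  simp only at hx hy hab hcd
  unfold orient at h
  simp only at h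
  by_cases h1 : a = i
  · by_cases h2 : c = i
    · subst h1
      subst h2
      simp only [if_true, Prod.mk.injEq] at h
      obtain ⟨rfl, rfl, rfl⟩ := h
      rfl
    · have h3 : d = i := hy.resolve_left h2
      subst h1
      subst h3
      simp only [if_true, if_neg h2, Prod.mk.injEq] at h
      obtain ⟨rfl, _, _⟩ := h
      exact absurd hcd (not_lt.2 hab.le)
  · have h1' : b = i := hx.resolve_left h1
    by_cases h2 : c = i
    · subst h1'
      subst h2
      simp only [if_true, if_neg h1, Prod.mk.injEq] at h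
      obtain ⟨rfl, _, _⟩ := h
      exact absurd hcd (not_lt.2 hab.le)
    · have h3 : d = i := hy.resolve_left h2
      subst h1'
      subst h3
      simp only [if_neg h1, if_neg h2, Prod.mk.injEq] at h
      obtain ⟨rfl, rfl, rfl⟩ := h
      rfl

theorem orient_ne {k : ℕ} {i : Fin k} {x : Idx k} (_hx : x ∈ SS i) : i ≠ (orient i x).1 := by
  have := x.1.2
  unfold orient
  by_cases h1 : x.1.1.1 = i
  · rw [if_pos h1]
    rw [h1] at this
    exact this.ne
  · rw [if_neg h1]
    exact Ne.symm h1

theorem gF_eq {k : ℕ} (ε : ℝ) {i : Fin k} {x : Idx k} (hx : x ∈ SS i) :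
    gF ε x = HH ε i (orient i x).1 (sg (orient i x).2.1) (sg (orient i x).2.2) := by
  rw [mem_SS] at hx
  unfold orient gF
  by_cases h1 : x.1.1.1 = i
  · rw [if_pos h1, h1]
  · rw [if_neg h1, HH_symm, hx.resolve_left h1]

/-- the witness beyond the side `x` of the face at `P i` -/
noncomputable def wit {k : ℕ} (ε : ℝ) (i : Fin k) (x : Idx k) : Fin 3 → ℝ :=
  ww ε i (orient i x).1 (sg (orient i x).2.1) (sg (orient i x).2.2)

theorem eventually_wit {k : ℕ} (i : Fin k) (x : Idx k) (hx : x ∈ SS i) (y : Idx k) :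
    ∀ᶠ ε in 𝓝[>] (0 : ℝ),
      0 < (if y = x then (-1 : ℝ) else 1) * (gF ε y (PP i) * gF ε y (wit ε i x)) := by
  by_cases hy : y ∈ SS i
  · by_cases hj : (orient i x).1 = (orient i y).1
    · have hlt : ∀ᶠ ε in 𝓝[>] (0 : ℝ), ε < 1 :=
        nhdsWithin_le_nhds (gt_mem_nhds (show (0 : ℝ) < 1 by norm_num))
      filter_upwards [self_mem_nhdsWithin, hlt] with ε h0 h1
      have h0' : (0 : ℝ) < ε := h0
      have hne := orient_ne hx
      rw [gF_eq ε hy, ← hj]
      unfold wit
      rw [HH_ww_same ε hne]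
      set σ := (orient i x).2.1
      set τ := (orient i x).2.2
      set σ' := (orient i y).2.1 with hσ'
      set τ' := (orient i y).2.2 with hτ'
      by_cases hs : σ' = σ
      · by_cases ht : τ' = τ
        · have hyx : y = x := by
            apply orient_inj hy hx
            apply Prod.ext hj.symm
            exact Prod.ext hs ht
          rw [if_pos hyx, hs, ht]
          have e : (-1 : ℝ) * (ε * sg σ * (ε * (sg σ - sg σ) - ε ^ 3 * sg σ * sg τ * sg τ)) =
              ε ^ 4 * (sg σ * sg σ) * (sg τ * sg τ) := by ring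
          rw [e, sg_mul_self, sg_mul_self]
          positivity
        · have hyx : y ≠ x := by
            rintro rfl
            exact ht rfl
          rw [if_neg hyx, hs, sg_ne ht]
          have e : (1 : ℝ) * (ε * sg σ * (ε * (sg σ - sg σ) - ε ^ 3 * sg σ * sg τ * -sg τ)) =
              ε ^ 4 * (sg σ * sg σ) * (sg τ * sg τ) := by ring
          rw [e, sg_mul_self, sg_mul_self]
          positivity
      · have hyx : y ≠ x := by
          rintro rfl
          exact hs rfl
        rw [if_neg hyx, sg_ne hs]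
        have e : (1 : ℝ) * (ε * -sg σ * (ε * (-sg σ - sg σ) - ε ^ 3 * sg σ * sg τ * sg τ')) =
            (sg σ * sg σ) * (ε ^ 2 * (2 + ε ^ 2 * (sg τ * sg τ'))) := by ring
        rw [e, sg_mul_self, one_mul]
        apply mul_pos (by positivity)
        have h2 : ε ^ 2 < 1 := by nlinarith
        have h3 : 0 ≤ ε ^ 2 := sq_nonneg _
        rcases sg_mul_cases τ τ' with h | h
        · rw [h]
          linarith
        · rw [h]
          linarith
    · have hyx : y ≠ x := by
        rintro rfl
        exact hj rfl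
      have := HH_ww_adj i (orient i x).1 (orient i y).1 hj (orient_ne hy)
        (sg (orient i x).2.1) (sg (orient i x).2.2) (sg (orient i y).2.1) (sg (orient i y).2.2)
        (sg_sq _) (sg_sq _)
      filter_upwards [this] with ε hε
      rw [if_neg hyx, one_mul, gF_eq ε hy]
      exact hε
  · have hyx : y ≠ x := by
      rintro rfl
      exact hy hx
    rw [mem_SS] at hy
    push Not at hy
    have := HH_ww_far i (orient i x).1 y.1.1.1 y.1.1.2 hy.1.symm hy.2.symm
      (sg (orient i x).2.1) (sg (orient i x).2.2) (sg y.2.1) (sg y.2.2)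
    filter_upwards [this] with ε hε
    rw [if_neg hyx, one_mul]
    exact hε

theorem exists_dist {k : ℕ} (i j : Fin k) (hij : i ≠ j) :
    ∃ x y : Idx k, ∀ ε : ℝ, 0 < ε → 0 < (1 : ℝ) * (gF ε x (PP i) * gF ε x (PP j)) ∧
      0 < (-1 : ℝ) * (gF ε y (PP i) * gF ε y (PP j)) := by
  rcases lt_or_gt_of_ne hij with h | h
  · refine ⟨⟨⟨(i, j), h⟩, (true, true)⟩, ⟨⟨(i, j), h⟩, (true, false)⟩, fun ε hε => ⟨?_, ?_⟩⟩
    · unfold gF
      simp only
      rw [HH_left ε hij, HH_right ε hij]
      simp only [sg, if_true]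
      positivity
    · unfold gF
      simp only
      rw [HH_left ε hij, HH_right ε hij]
      simp only [sg, if_true, Bool.false_eq_true, if_false]
      nlinarith [mul_pos hε hε]
  · refine ⟨⟨⟨(j, i), h⟩, (true, true)⟩, ⟨⟨(j, i), h⟩, (true, false)⟩, fun ε hε => ⟨?_, ?_⟩⟩
    · unfold gF
      simp only
      rw [HH_left ε hij.symm, HH_right ε hij.symm]
      simp only [sg, if_true]
      positivity
    · unfold gF
      simp only
      rw [HH_left ε hij.symm, HH_right ε hij.symm]
      simp only [sg, if_true, Bool.false_eq_true, if_false]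
      nlinarith [mul_pos hε hε]

theorem card_pairs (k : ℕ) :
    2 * Fintype.card {e : Fin k × Fin k // e.1 < e.2} = k * (k - 1) := by
  rw [Fintype.card_subtype, Finset.card_filter, Fintype.sum_prod_type_right]
  have h : ∀ j : Fin k, (∑ i : Fin k, if i < j then 1 else 0) = (j : ℕ) := by
    intro j
    rw [← Finset.card_filter]
    have : (Finset.univ.filter fun i : Fin k => i < j) = Finset.Iio j := by
      ext i
      simp
    rw [this, Fin.card_Iio]
  simp_rw [h]
  rw [Fin.sum_univ_eq_sum_range (fun j => j) k, mul_comm]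
  exact Finset.sum_range_id_mul_two k

theorem card_Idx (k : ℕ) : Fintype.card (Idx k) = 2 * (k * (k - 1)) := by
  rw [Fintype.card_prod, ← card_pairs]
  simp
  ring

theorem sum_card_SS (k : ℕ) : ∑ i : Fin k, (SS i).card = 2 * Fintype.card (Idx k) := by
  have h : ∀ i : Fin k, (SS i).card = ∑ x : Idx k, if x.1.1.1 = i ∨ x.1.1.2 = i then 1 else 0 := by
    intro i
    rw [SS, Finset.card_filter]
  simp_rw [h]
  rw [Finset.sum_comm]
  have h2 : ∀ x : Idx k, (∑ i : Fin k, if x.1.1.1 = i ∨ x.1.1.2 = i then 1 else 0) = 2 := by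
    intro x
    rw [← Finset.card_filter]
    have : (Finset.univ.filter fun i : Fin k => x.1.1.1 = i ∨ x.1.1.2 = i) =
        {x.1.1.1, x.1.1.2} := by
      ext i
      simp [eq_comm]
    rw [this, Finset.card_pair x.1.2.ne]
  simp_rw [h2]
  rw [Finset.sum_const, Finset.card_univ, smul_eq_mul, mul_comm]

theorem lower_bound_two (k : ℕ) (hk : 2 ≤ k) : 2 * (k : ℤ) * (k - 1) ∈ excessSet k := by
  classical
  -- choose `ε`
  have h1 : ∀ᶠ ε in 𝓝[>] (0 : ℝ), ∀ (i : Fin k) (x y : Idx k), x ∈ SS i →
      0 < (if y = x then (-1 : ℝ) else 1) * (gF ε y (PP i) * gF ε y (wit ε i x)) := by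
    rw [eventually_all]
    intro i
    rw [eventually_all]
    intro x
    rw [eventually_all]
    intro y
    by_cases hx : x ∈ SS i
    · filter_upwards [eventually_wit i x hx y] with ε hε _
      exact hε
    · exact Eventually.of_forall fun ε h => absurd h hx
  obtain ⟨ε, hε, hε0⟩ := (h1.and self_mem_nhdsWithin).exists
  have hε0' : (0 : ℝ) < ε := hε0
  -- choose `t`
  let y : Idx k → ℝ := fun x => ((Fintype.equivFin (Idx k) x : ℕ) : ℝ)
  have hy : Function.Injective y := by
    intro a b hab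
    have : ((Fintype.equivFin (Idx k) a : ℕ) : ℝ) = ((Fintype.equivFin (Idx k) b : ℕ) : ℝ) := hab
    have h := Fin.ext (by exact_mod_cast this : (Fintype.equivFin (Idx k) a : ℕ) =
      (Fintype.equivFin (Idx k) b : ℕ))
    exact (Fintype.equivFin (Idx k)).injective h
  have h2 : ∀ᶠ t in 𝓝[>] (0 : ℝ), ∀ (i : Fin k) (x z : Idx k), x ∈ SS i →
      0 < (if z = x then (-1 : ℝ) else 1) *
        (pert (gF ε) y t z (PP i) * pert (gF ε) y t z (wit ε i x)) := by
    rw [eventually_all]
    intro i
    rw [eventually_all]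
    intro x
    rw [eventually_all]
    intro z
    by_cases hx : x ∈ SS i
    · filter_upwards [eventually_pos (gF ε) y z _ _ _ (hε i x z hx)] with t ht _
      exact ht
    · exact Eventually.of_forall fun t h => absurd h hx
  have h3 : ∀ᶠ t in 𝓝[>] (0 : ℝ), ∀ (i j : Fin k), i ≠ j → ∃ x z : Idx k,
      (pert (gF ε) y t x (PP i) * pert (gF ε) y t x (PP j)) *
        (pert (gF ε) y t z (PP i) * pert (gF ε) y t z (PP j)) < 0 := by
    rw [eventually_all]
    intro i
    rw [eventually_all]
    intro j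
    by_cases hij : i = j
    · exact Eventually.of_forall fun t h => absurd hij h
    · obtain ⟨x, z, hxz⟩ := exists_dist i j hij
      obtain ⟨hx, hz⟩ := hxz ε hε0'
      filter_upwards [eventually_pos (gF ε) y x _ _ _ hx,
        eventually_pos (gF ε) y z _ _ _ hz] with t ht1 ht2 _
      refine ⟨x, z, ?_⟩
      rw [one_mul] at ht1
      have : pert (gF ε) y t z (PP i) * pert (gF ε) y t z (PP j) < 0 := by linarith
      exact mul_neg_of_pos_of_neg ht1 this
  obtain ⟨t, ⟨ht2, ht3⟩, hts⟩ := ((h2.and h3).and (eventually_simple (gF ε) y hy)).exists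
  have hcard : Fintype.card (Idx k) = 2 * (k * (k - 1)) := card_Idx k
  have hge : 3 ≤ Fintype.card (Idx k) := by
    rw [hcard]
    obtain ⟨m, rfl⟩ : ∃ m, k = m + 2 := ⟨k - 2, by omega⟩
    have : m + 2 - 1 = m + 1 := by omega
    rw [this]
    nlinarith
  have hSne : ∀ i : Fin k, ∃ x, x ∈ SS i := by
    intro i
    have : Nontrivial (Fin k) := Fin.nontrivial_iff_two_le.2 hk
    obtain ⟨j, hj⟩ := exists_ne i
    rcases lt_or_gt_of_ne hj with h | h
    · exact ⟨⟨⟨(j, i), h⟩, (true, true)⟩, by rw [mem_SS]; right; rfl⟩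
    · exact ⟨⟨⟨(i, j), h⟩, (true, true)⟩, by rw [mem_SS]; left; rfl⟩
  apply mem_excess (f := pert (gF ε) y t) k hge hts PP
  · intro i x h0
    obtain ⟨x0, hx0⟩ := hSne i
    have := ht2 i x0 x hx0
    rw [h0] at this
    simp at this
  · exact ht3
  · intro i x hx
    refine ⟨wit ε i x, ?_, fun z hz => ?_⟩
    · have := ht2 i x x hx
      rw [if_pos rfl] at this
      linarith
    · have := ht2 i x z hx
      rw [if_neg hz, one_mul] at this
      exact this
  · have hsum : (∑ i : Fin k, ((SS i).card : ℤ)) = 2 * (Fintype.card (Idx k) : ℤ) := by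
      exact_mod_cast sum_card_SS k
    rw [hsum, hcard]
    have hk1 : 1 ≤ k := by omega
    push_cast [Nat.cast_sub hk1]
    nlinarith

theorem fin3_cases : ∀ i j k l : Fin 3, i ≠ j → i ≠ k → j ≠ k → l = i ∨ l = j ∨ l = k := by
  decide

theorem lower_bound_one : 2 * ((1 : ℕ) : ℤ) * (((1 : ℕ) : ℤ) - 1) ∈ excessSet 1 := by
  classical
  let f : Fin 3 → Form := fun i => LinearMap.proj i
  have hf : ∀ i v, f i v = v i := fun i v => rfl
  apply mem_excess (f := f) 1 (by simp) ?_ (fun _ => fun _ => 1) ?_ ?_ (fun _ => Finset.univ) ?_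
  · simp
  · intro i j k hij hik hjk v h1 h2 h3
    rw [hf] at h1 h2 h3
    ext l
    have : l = i ∨ l = j ∨ l = k := fin3_cases i j k l hij hik hjk
    rcases this with rfl | rfl | rfl
    · exact h1
    · exact h2
    · exact h3
  · intro i x
    rw [hf]
    norm_num
  · intro i j hij
    exact absurd (Subsingleton.elim i j) hij
  · intro i x _
    refine ⟨fun j => if j = x then -1 else 1, ?_, fun z hz => ?_⟩
    · simp [hf]
    · simp [hf, hz]

theorem lower_bound (k : ℕ) (hk : 1 ≤ k) : 2 * (k : ℤ) * (k - 1) ∈ excessSet k := by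
  rcases Nat.lt_or_ge k 2 with h | h
  · have : k = 1 := by omega
    subst this
    exact lower_bound_one
  · exact lower_bound_two k h

end Pool.Agent.U285.LA
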