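import Pool.Agent.U285.LA.Build

/-!
# Making an arrangement simple by a small perturbation
-/

namespace Pool.Agent.U285.LA

open Set Filter Topology

/-- the form `v₀ + r v₁ + r² v₂` -/
def vform (r : ℝ) : Form :=
  LinearMap.proj 0 + r • LinearMap.proj 1 + (r ^ 2) • LinearMap.proj 2

theorem vform_apply (r : ℝ) (v : Fin 3 → ℝ) : vform r v = v 0 + r * v 1 + r ^ 2 * v 2 := by
  simp [vform]

theorem form_apply (φ : Form) (v : Fin 3 → ℝ) :
    φ v = φ (Pi.single 0 1) * v 0 + φ (Pi.single 1 1) * v 1 + φ (Pi.single 2 1) * v 2 := by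
  conv_lhs => rw [LinearMap.pi_apply_eq_sum_univ φ v]
  rw [Fin.sum_univ_three]
  simp only [smul_eq_mul]
  have e : ∀ i : Fin 3, (fun j => if i = j then (1 : ℝ) else 0) = Pi.single i 1 := by
    intro i
    ext j
    rw [Pi.single_apply]
    by_cases h : i = j
    · simp [h]
    · have h' : j ≠ i := fun e => h e.symm
      simp [h, h']
  rw [e, e, e]
  ring

/-- the perturbed forms -/
noncomputable def pert {ι : Type} (g : ι → Form) (y : ι → ℝ) (t : ℝ) (x : ι) : Form :=
  g x + t • vform (y x)

theorem pert_apply {ι : Type} (g : ι → Form) (y : ι → ℝ) (t : ℝ) (x : ι) (v : Fin 3 → ℝ) :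
    pert g y t x v = g x v + t * vform (y x) v := by
  simp [pert]

theorem eventually_triple {ι : Type} (g : ι → Form) (y : ι → ℝ) (hy : Function.Injective y)
    (a b c : ι) (hab : a ≠ b) (hac : a ≠ c) (hbc : b ≠ c) :
    ∀ᶠ t in 𝓝[>] (0 : ℝ), ∀ v : Fin 3 → ℝ, pert g y t a v = 0 → pert g y t b v = 0 →
      pert g y t c v = 0 → v = 0 := by
  let V : Matrix (Fin 3) (Fin 3) ℝ := Matrix.vandermonde ![y a, y b, y c]
  let M : Matrix (Fin 3) (Fin 3) ℝ := fun i j => ![g a, g b, g c] i (Pi.single j 1)
  have hV : V.det ≠ 0 := by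
    rw [Matrix.det_vandermonde_ne_zero_iff]
    intro i j hij
    fin_cases i <;> fin_cases j <;> simp at hij ⊢
    · exact hab (hy hij)
    · exact hac (hy hij)
    · exact hab (hy hij.symm)
    · exact hbc (hy hij)
    · exact hac (hy hij.symm)
    · exact hbc (hy hij.symm)
  let p : Polynomial ℝ :=
    ((Polynomial.X : Polynomial ℝ) • V.map Polynomial.C + M.map Polynomial.C).det
  have hp : p ≠ 0 := by
    intro h0
    have := Polynomial.coeff_det_X_add_C_card V M
    change p.coeff _ = _ at this
    rw [h0, Polynomial.coeff_zero] at this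
    exact hV this.symm
  have heval : ∀ t : ℝ, p.eval t = (t • V + M).det := by
    intro t
    have := (Polynomial.evalRingHom t).map_det
      ((Polynomial.X : Polynomial ℝ) • V.map Polynomial.C + M.map Polynomial.C)
    rw [Polynomial.coe_evalRingHom] at this
    change p.eval t = _ at this
    rw [this]
    congr 1
    ext i j
    simp
    ring
  have hroots : {t : ℝ | p.IsRoot t}.Finite := Polynomial.finite_setOfPred_isRoot hp
  have hev : ∀ᶠ t in 𝓝[>] (0 : ℝ), t ∈ {t : ℝ | p.IsRoot t}ᶜ := by
    have h1 : 𝓝[>] (0 : ℝ) ≤ 𝓝[≠] (0 : ℝ) :=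
      nhdsWithin_mono _ fun t ht => ne_of_gt (show (0 : ℝ) < t from ht)
    exact (h1.trans (nhdsNE_le_cofinite 0)) hroots.compl_mem_cofinite
  filter_upwards [hev] with t ht v ha hb hc
  have hdet : (t • V + M).det ≠ 0 := by
    rw [← heval]
    exact ht
  apply Matrix.eq_zero_of_mulVec_eq_zero hdet
  ext i
  rw [pert_apply, vform_apply, form_apply] at ha hb hc
  rw [Matrix.mulVec, dotProduct, Fin.sum_univ_three]
  fin_cases i
  · simp only [V, M, Matrix.add_apply, Matrix.smul_apply, Matrix.vandermonde_apply, smul_eq_mul,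
      Pi.zero_apply]
    simp
    linarith
  · simp only [V, M, Matrix.add_apply, Matrix.smul_apply, Matrix.vandermonde_apply, smul_eq_mul,
      Pi.zero_apply]
    simp
    linarith
  · simp only [V, M, Matrix.add_apply, Matrix.smul_apply, Matrix.vandermonde_apply, smul_eq_mul,
      Pi.zero_apply]
    simp
    linarith

theorem eventually_simple {ι : Type} [Finite ι] (g : ι → Form) (y : ι → ℝ)
    (hy : Function.Injective y) : ∀ᶠ t in 𝓝[>] (0 : ℝ), SimpleForms (pert g y t) := by
  have h : ∀ᶠ t in 𝓝[>] (0 : ℝ), ∀ a b c : ι, a ≠ b → a ≠ c → b ≠ c →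
      ∀ v : Fin 3 → ℝ, pert g y t a v = 0 → pert g y t b v = 0 → pert g y t c v = 0 → v = 0 := by
    rw [eventually_all]
    intro a
    rw [eventually_all]
    intro b
    rw [eventually_all]
    intro c
    by_cases h1 : a ≠ b
    · by_cases h2 : a ≠ c
      · by_cases h3 : b ≠ c
        · filter_upwards [eventually_triple g y hy a b c h1 h2 h3] with t ht _ _ _
          exact ht
        · exact Eventually.of_forall fun t _ _ h => absurd h h3
      · exact Eventually.of_forall fun t _ h _ => absurd h h2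
    · exact Eventually.of_forall fun t h _ _ => absurd h h1
  exact h

theorem eventually_pos {ι : Type} (g : ι → Form) (y : ι → ℝ) (x : ι) (s : ℝ)
    (p q : Fin 3 → ℝ) (h : 0 < s * (g x p * g x q)) :
    ∀ᶠ t in 𝓝[>] (0 : ℝ), 0 < s * (pert g y t x p * pert g y t x q) := by
  have hc : Continuous fun t : ℝ => s * (pert g y t x p * pert g y t x q) := by
    simp only [pert_apply]
    fun_prop
  have h0 : 0 < s * (pert g y 0 x p * pert g y 0 x q) := by
    simp only [pert_apply, zero_mul, add_zero]
    exact h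
  exact nhdsWithin_le_nhds ((hc.tendsto 0).eventually (lt_mem_nhds h0))

end Pool.Agent.U285.LA
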