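import Pool.Agent.U285.LA.Top

/-!
# The number of sides of a face counts the facets of the sign cone
-/

namespace Pool.Agent.U285.LA

open Set

/-- the line with equation `φ = 0` -/
def lineOf (φ : Form) : Set Plane := {p : Plane | φ p.rep = 0}

theorem mk_mem_lineOf (φ : Form) (v : Fin 3 → ℝ) (hv : v ≠ 0) :
    Projectivization.mk ℝ v hv ∈ lineOf φ ↔ φ v = 0 := form_rep_eq_zero_iff φ v hv

/-- the forms `f i` are equations of the lines of `A`, without repetition -/
structure Pres {ι : Type} (A : Finset (Set Plane)) (f : ι → Form) : Prop where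
  ne : ∀ i, f i ≠ 0
  inj : Function.Injective fun i => lineOf (f i)
  mem : ∀ L, L ∈ A ↔ ∃ i, L = lineOf (f i)

variable {ι : Type} {A : Finset (Set Plane)} {f : ι → Form}

/-- the other forms -/
def others (f : ι → Form) (l : ι) : {i // i ≠ l} → Form := fun i => f i.1

theorem Pres.complement_eq (h : Pres A f) : complementSet A = region ⊤ f := by
  ext p
  unfold complementSet region
  simp only [mem_ofPred_eq, Submodule.mem_top, true_and]
  constructor
  · intro hp i h0
    exact hp (lineOf (f i)) ((h.mem _).2 ⟨i, rfl⟩) h0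
  · intro hp L hL hpL
    obtain ⟨i, rfl⟩ := (h.mem L).1 hL
    exact hp i hpL

theorem Pres.openLine_eq (h : Pres A f) (l : ι) :
    openLine A (lineOf (f l)) = region (LinearMap.ker (f l)) (others f l) := by
  ext p
  unfold openLine region others
  simp only [mem_ofPred_eq, LinearMap.mem_ker]
  constructor
  · rintro ⟨h1, h2⟩
    refine ⟨h1, fun i h0 => ?_⟩
    exact h2 (lineOf (f i.1)) ((h.mem _).2 ⟨i.1, rfl⟩) (fun he => i.2 (h.inj he)) h0
  · rintro ⟨h1, h2⟩
    refine ⟨h1, fun M hM hne hpM => ?_⟩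
    obtain ⟨i, rfl⟩ := (h.mem M).1 hM
    exact h2 ⟨i, fun he => hne (by rw [he])⟩ hpM

theorem Pres.isFace_iff [Nonempty ι] (h : Pres A f) (F : Set Plane) :
    IsFace A F ↔ ∃ v : Fin 3 → ℝ, v ≠ 0 ∧ (∀ i, f i v ≠ 0) ∧ F = cellIn ⊤ f v := by
  unfold IsFace
  rw [h.complement_eq]
  constructor
  · rintro ⟨p, hp, rfl⟩
    refine ⟨p.rep, p.rep_nonzero, hp.2, ?_⟩
    rw [← component_eq_cellIn ⊤ f p.rep p.rep_nonzero trivial hp.2, Projectivization.mk_rep]
  · rintro ⟨v, hv, hf, rfl⟩
    refine ⟨Projectivization.mk ℝ v hv, ?_, (component_eq_cellIn ⊤ f v hv trivial hf).symm⟩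
    rw [mk_mem_region]
    exact ⟨trivial, hf⟩

theorem nonempty_others [Nontrivial ι] (l : ι) : Nonempty {i // i ≠ l} :=
  let ⟨i, hi⟩ := exists_ne l
  ⟨⟨i, hi⟩⟩

theorem Pres.isEdge_iff [Nontrivial ι] (h : Pres A f) (e : Set Plane) :
    IsEdge A e ↔ ∃ l, ∃ w : Fin 3 → ℝ, w ≠ 0 ∧ f l w = 0 ∧ (∀ i, i ≠ l → f i w ≠ 0) ∧
      e = cellIn (LinearMap.ker (f l)) (others f l) w := by
  unfold IsEdge
  constructor
  · rintro ⟨L, hL, p, hp, rfl⟩
    obtain ⟨l, rfl⟩ := (h.mem L).1 hL
    have := nonempty_others l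
    rw [h.openLine_eq] at hp ⊢
    refine ⟨l, p.rep, p.rep_nonzero, hp.1, fun i hi => hp.2 ⟨i, hi⟩, ?_⟩
    rw [← component_eq_cellIn _ _ p.rep p.rep_nonzero hp.1 hp.2, Projectivization.mk_rep]
  · rintro ⟨l, w, hw, hl, ho, rfl⟩
    have := nonempty_others l
    refine ⟨lineOf (f l), (h.mem _).2 ⟨l, rfl⟩, Projectivization.mk ℝ w hw, ?_, ?_⟩
    · rw [h.openLine_eq, mk_mem_region]
      exact ⟨hl, fun i => ho i.1 i.2⟩
    · rw [h.openLine_eq]
      exact (component_eq_cellIn (LinearMap.ker (f l)) (others f l) w hw hl fun i => ho i.1 i.2).symm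

theorem cellIn_congr {κ : Type} (W : Submodule ℝ (Fin 3 → ℝ)) (g : κ → Form)
    (v w : Fin 3 → ℝ) (h : ∀ i j, 0 < (g i v * g i w) * (g j v * g j w)) :
    cellIn W g v = cellIn W g w := by
  ext p
  unfold cellIn
  simp only [mem_ofPred_eq]
  refine and_congr Iff.rfl (forall_congr' fun i => forall_congr' fun j => ?_)
  by_cases h0 : g i p.rep * g j p.rep = 0
  · have e1 : g i v * g i p.rep * (g j v * g j p.rep) = g i v * g j v * (g i p.rep * g j p.rep) := by
      ring
    have e2 : g i w * g i p.rep * (g j w * g j p.rep) = g i w * g j w * (g i p.rep * g j p.rep) := by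
      ring
    rw [e1, e2, h0]
    simp
  · apply pos_iff_pos_of_mul_pos
    have e : g i v * g i p.rep * (g j v * g j p.rep) * (g i w * g i p.rep * (g j w * g j p.rep)) =
        (g i v * g i w) * (g j v * g j w) * (g i p.rep * g j p.rep) ^ 2 := by ring
    rw [e]
    exact mul_pos (h i j) (by positivity)

theorem cell_eq_iff {κ : Type} [Nonempty κ] (g : κ → Form)
    (v w : Fin 3 → ℝ) (hw : w ≠ 0) (hgw : ∀ i, g i w ≠ 0) :
    cellIn ⊤ g v = cellIn ⊤ g w ↔ ∀ i j, 0 < (g i v * g i w) * (g j v * g j w) := by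
  constructor
  · intro h
    have : Projectivization.mk ℝ w hw ∈ cellIn ⊤ g w := by
      rw [mk_mem_cellIn]
      exact ⟨trivial, fun i j => mul_pos (mul_self_pos.2 (hgw i)) (mul_self_pos.2 (hgw j))⟩
    rw [← h, mk_mem_cellIn] at this
    exact this.2
  · exact cellIn_congr ⊤ g v w

theorem closure_cell_subset (v : Fin 3 → ℝ) (p : Plane) (hp : p ∈ closure (cellIn ⊤ f v)) :
    ∀ i j, 0 ≤ (f i v * f i p.rep) * (f j v * f j p.rep) := by
  intro i j
  have hcl : IsClosed {p : Plane | 0 < ((-(f i v * f j v)) • f i) p.rep * f j p.rep}ᶜ :=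
    (isOpen_pos _ _).isClosed_compl
  have hsub : cellIn ⊤ f v ⊆ {p : Plane | 0 < ((-(f i v * f j v)) • f i) p.rep * f j p.rep}ᶜ := by
    intro q hq
    simp only [mem_compl_iff, mem_ofPred_eq, LinearMap.smul_apply, smul_eq_mul, not_lt]
    have := hq.2 i j
    linarith
  have := closure_minimal hsub hcl hp
  simp only [mem_compl_iff, mem_ofPred_eq, LinearMap.smul_apply, smul_eq_mul, not_lt] at this
  linarith

theorem mem_closure_cell [Nonempty ι] (v u : Fin 3 → ℝ) (hu : u ≠ 0)
    (hv : ∀ i, f i v ≠ 0) (h : ∀ i, 0 ≤ f i v * f i u) :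
    Projectivization.mk ℝ u hu ∈ closure (cellIn ⊤ f v) := by
  rw [cellIn_eq_image]
  have h1 : (⟨u, hu⟩ : {v : Fin 3 → ℝ // v ≠ 0}) ∈
      closure {u : {v : Fin 3 → ℝ // v ≠ 0} | u.1 ∈ cone ⊤ f v} := by
    have him : Subtype.val '' {u : {v : Fin 3 → ℝ // v ≠ 0} | u.1 ∈ cone ⊤ f v} = cone ⊤ f v := by
      ext u
      constructor
      · rintro ⟨u, hu, rfl⟩
        exact hu
      · intro hu
        exact ⟨⟨u, ne_zero_of_mem_cone hu⟩, hu, rfl⟩
    have h2 : u ∈ closure (cone ⊤ f v) := by
      have ht : Filter.Tendsto (fun t : ℝ => u + t • v) (nhdsWithin 0 (Ioi 0)) (nhds u) := by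
        have hc : Continuous fun t : ℝ => u + t • v := by fun_prop
        have := (hc.tendsto 0).mono_left (nhdsWithin_le_nhds (s := Ioi (0 : ℝ)))
        simpa using this
      refine mem_closure_of_tendsto ht ?_
      filter_upwards [self_mem_nhdsWithin] with t ht
      refine ⟨trivial, fun i => ?_⟩
      rw [map_add, map_smul, smul_eq_mul]
      have e : f i v * (f i u + t * f i v) = f i v * f i u + t * (f i v * f i v) := by ring
      rw [e]
      have := mul_pos (show (0 : ℝ) < t from ht) (mul_self_pos.2 (hv i))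
      have := h i
      linarith
    rw [← him] at h2
    rwa [closure_subtype]
  exact image_closure_subset_closure_image continuous_mk' ⟨_, h1, rfl⟩

/-- The indices of the lines containing an edge of the cell of `v`. -/
def facets (f : ι → Form) (v : Fin 3 → ℝ) : Set ι :=
  {l | ∃ w : Fin 3 → ℝ, f l w = 0 ∧ ∀ i, i ≠ l → 0 < f i v * f i w}

/-- The edge of the cell of `v` on the `l`-th line. -/
def edgeOf (f : ι → Form) (v : Fin 3 → ℝ) (l : ι) : Set Plane :=
  cellIn (LinearMap.ker (f l)) (others f l) v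

theorem Pres.sides_eq [Nontrivial ι] (h : Pres A f) (v : Fin 3 → ℝ)
    (hv : ∀ i, f i v ≠ 0) : sides A (cellIn ⊤ f v) = (facets f v).ncard := by
  have key : {e : Set Plane | IsEdge A e ∧ e ⊆ frontier (cellIn ⊤ f v)} =
      edgeOf f v '' facets f v := by
    ext e
    simp only [mem_ofPred_eq, mem_image]
    constructor
    · rintro ⟨he, hfr⟩
      obtain ⟨l, w, hw, hl, ho, rfl⟩ := (h.isEdge_iff e).1 he
      have := nonempty_others l
      have hmem : Projectivization.mk ℝ w hw ∈ cellIn (LinearMap.ker (f l)) (others f l) w := by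
        rw [mk_mem_cellIn]
        exact ⟨hl, fun i j => mul_pos (mul_self_pos.2 (ho i.1 i.2)) (mul_self_pos.2 (ho j.1 j.2))⟩
      have hcl : Projectivization.mk ℝ w hw ∈ closure (cellIn ⊤ f v) :=
        frontier_subset_closure (hfr hmem)
      have hge := closure_cell_subset v _ hcl
      have hpos : ∀ i j : {i // i ≠ l},
          0 < (others f l i v * others f l i w) * (others f l j v * others f l j w) := by
        intro i j
        have h1 := hge i.1 j.1
        have h2 : (f i.1 v * f i.1 (Projectivization.mk ℝ w hw).rep) *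
            (f j.1 v * f j.1 (Projectivization.mk ℝ w hw).rep) ≠ 0 := by
          refine mul_ne_zero (mul_ne_zero (hv _) ?_) (mul_ne_zero (hv _) ?_)
          · rw [ne_eq, form_rep_eq_zero_iff]
            exact ho i.1 i.2
          · rw [ne_eq, form_rep_eq_zero_iff]
            exact ho j.1 j.2
        have h3 := lt_of_le_of_ne h1 (Ne.symm h2)
        rw [pos4_rep_iff] at h3
        exact h3
      refine ⟨l, ?_, cellIn_congr _ _ v w hpos⟩
      rcases exists_sign (fun i : {i // i ≠ l} => others f l i v * others f l i w) hpos with h1 | h1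
      · exact ⟨w, hl, fun i hi => h1 ⟨i, hi⟩⟩
      · refine ⟨-w, by rw [map_neg, hl, neg_zero], fun i hi => ?_⟩
        have := h1 ⟨i, hi⟩
        simp only [others] at this
        rw [map_neg]
        linarith
    · rintro ⟨l, ⟨w, hl, hw⟩, rfl⟩
      have := nonempty_others l
      have hwne : w ≠ 0 := by
        rintro rfl
        obtain ⟨i, hi⟩ := exists_ne l
        have := hw i hi
        simp at this
      have heq : edgeOf f v l = cellIn (LinearMap.ker (f l)) (others f l) w :=
        cellIn_congr _ _ v w fun i j => mul_pos (hw i.1 i.2) (hw j.1 j.2)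
      refine ⟨?_, ?_⟩
      · rw [h.isEdge_iff]
        refine ⟨l, w, hwne, hl, fun i hi h0 => ?_, heq⟩
        have := hw i hi
        rw [h0] at this
        simp at this
      · intro p hp
        obtain ⟨u, hu, rfl, hu1, hu2⟩ := exists_rep_of_mem_cellIn _ _ v p hp
        have hu0 : f l u = 0 := hu1
        rw [frontier, mem_sdiff]
        refine ⟨mem_closure_cell v u hu hv fun i => ?_, fun hint => ?_⟩
        · by_cases hi : i = l
          · rw [hi, hu0, mul_zero]
          · exact (hu2 ⟨i, hi⟩).le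
        · have := (interior_subset hint).2 l l
          rw [pos4_rep_iff, hu0] at this
          simp at this
  unfold sides
  rw [key, Set.InjOn.ncard_image]
  intro l hl l' hl' heq
  by_contra hne
  obtain ⟨w, hw1, hw2⟩ := hl
  have := nonempty_others l
  have hwne : w ≠ 0 := by
    rintro rfl
    obtain ⟨i, hi⟩ := exists_ne l
    have := hw2 i hi
    simp at this
  have hmem : Projectivization.mk ℝ w hwne ∈ edgeOf f v l := by
    unfold edgeOf
    rw [mk_mem_cellIn]
    exact ⟨hw1, fun i j => mul_pos (hw2 i.1 i.2) (hw2 j.1 j.2)⟩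
  have heq' : edgeOf f v l = edgeOf f v l' := heq
  rw [heq'] at hmem
  unfold edgeOf at hmem
  rw [mk_mem_cellIn] at hmem
  have := hmem.2 ⟨l, hne⟩ ⟨l, hne⟩
  simp only [others] at this
  rw [hw1] at this
  simp at this

end Pool.Agent.U285.LA
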