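import Pool.Agent.U285.LA.Defs

/-!
# Faces and edges of a line arrangement as sign cones
-/

namespace Pool.Agent.U285.LA

open Set

/-- linear forms on `ℝ³` -/
abbrev Form : Type := (Fin 3 → ℝ) →ₗ[ℝ] ℝ

theorem rep_mk (v : Fin 3 → ℝ) (hv : v ≠ 0) :
    ∃ a : ℝ, a ≠ 0 ∧ (Projectivization.mk ℝ v hv).rep = a • v := by
  obtain ⟨a, ha⟩ := Projectivization.exists_smul_eq_mk_rep ℝ v hv
  exact ⟨a, a.ne_zero, ha.symm⟩

theorem form_rep_eq_zero_iff (φ : Form) (v : Fin 3 → ℝ) (hv : v ≠ 0) :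
    φ (Projectivization.mk ℝ v hv).rep = 0 ↔ φ v = 0 := by
  obtain ⟨a, ha, h⟩ := rep_mk v hv
  rw [h, map_smul, smul_eq_mul, mul_eq_zero]
  constructor
  · rintro (h | h)
    · exact absurd h ha
    · exact h
  · exact Or.inr

theorem pos_rep_iff (φ ψ : Form) (v : Fin 3 → ℝ) (hv : v ≠ 0) :
    0 < φ (Projectivization.mk ℝ v hv).rep * ψ (Projectivization.mk ℝ v hv).rep ↔
      0 < φ v * ψ v := by
  obtain ⟨a, ha, h⟩ := rep_mk v hv
  rw [h, map_smul, map_smul, smul_eq_mul, smul_eq_mul]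
  have : a * φ v * (a * ψ v) = a ^ 2 * (φ v * ψ v) := by ring
  rw [this]
  exact mul_pos_iff_of_pos_left (by positivity)

theorem continuous_mk' :
    Continuous (Projectivization.mk' ℝ : {v : Fin 3 → ℝ // v ≠ 0} → Plane) :=
  continuous_coinduced_rng

theorem isOpen_pos (φ ψ : Form) : IsOpen {p : Plane | 0 < φ p.rep * ψ p.rep} := by
  rw [isOpen_coinduced]
  have : (Projectivization.mk' ℝ : {v : Fin 3 → ℝ // v ≠ 0} → Plane) ⁻¹'
      {p : Plane | 0 < φ p.rep * ψ p.rep} = {v | 0 < φ v.1 * ψ v.1} := by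
    ext v
    simp only [mem_preimage, mem_ofPred_eq, Projectivization.mk'_eq_mk]
    exact pos_rep_iff φ ψ v.1 v.2
  rw [this]
  have h1 : Continuous fun v : {v : Fin 3 → ℝ // v ≠ 0} => φ v.1 :=
    (LinearMap.continuous_of_finiteDimensional φ).comp continuous_subtype_val
  have h2 : Continuous fun v : {v : Fin 3 → ℝ // v ≠ 0} => ψ v.1 :=
    (LinearMap.continuous_of_finiteDimensional ψ).comp continuous_subtype_val
  exact isOpen_lt continuous_const (h1.mul h2)

theorem pos4_rep_iff (φ φ' ψ ψ' : Form) (v w : Fin 3 → ℝ) (hv : v ≠ 0) :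
    0 < (φ w * φ' (Projectivization.mk ℝ v hv).rep) *
        (ψ w * ψ' (Projectivization.mk ℝ v hv).rep) ↔
      0 < (φ w * φ' v) * (ψ w * ψ' v) := by
  obtain ⟨a, ha, h⟩ := rep_mk v hv
  rw [h, map_smul, map_smul, smul_eq_mul, smul_eq_mul]
  have : φ w * (a * φ' v) * (ψ w * (a * ψ' v)) = a ^ 2 * (φ w * φ' v * (ψ w * ψ' v)) := by ring
  rw [this]
  exact mul_pos_iff_of_pos_left (by positivity)

/-- The sign cell (in a linear subspace `W`) of the point `v` for the forms `g i`. -/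
def cellIn {κ : Type} (W : Submodule ℝ (Fin 3 → ℝ)) (g : κ → Form) (v : Fin 3 → ℝ) :
    Set Plane :=
  {p | p.rep ∈ W ∧ ∀ i j, 0 < (g i v * g i p.rep) * (g j v * g j p.rep)}

theorem rep_mem_iff (W : Submodule ℝ (Fin 3 → ℝ)) (v : Fin 3 → ℝ) (hv : v ≠ 0) :
    (Projectivization.mk ℝ v hv).rep ∈ W ↔ v ∈ W := by
  obtain ⟨a, ha, h⟩ := rep_mk v hv
  rw [h]
  exact W.smul_mem_iff ha

theorem mk_mem_cellIn {κ : Type} (W : Submodule ℝ (Fin 3 → ℝ)) (g : κ → Form)
    (v u : Fin 3 → ℝ) (hu : u ≠ 0) :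
    Projectivization.mk ℝ u hu ∈ cellIn W g v ↔
      u ∈ W ∧ ∀ i j, 0 < (g i v * g i u) * (g j v * g j u) := by
  unfold cellIn
  simp only [mem_ofPred_eq, rep_mem_iff]
  constructor
  · rintro ⟨h1, h2⟩
    exact ⟨h1, fun i j => (pos4_rep_iff (g i) (g i) (g j) (g j) u v hu).1 (h2 i j)⟩
  · rintro ⟨h1, h2⟩
    exact ⟨h1, fun i j => (pos4_rep_iff (g i) (g i) (g j) (g j) u v hu).2 (h2 i j)⟩

/-- all the products positive, up to a global sign -/
theorem exists_sign {κ : Type} [Nonempty κ] (s : κ → ℝ) (h : ∀ i j, 0 < s i * s j) :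
    (∀ i, 0 < s i) ∨ (∀ i, s i < 0) := by
  obtain ⟨i0⟩ := ‹Nonempty κ›
  rcases lt_trichotomy (s i0) 0 with h0 | h0 | h0
  · right
    intro i
    by_contra hc
    push Not at hc
    have := h i0 i
    nlinarith
  · exfalso
    have := h i0 i0
    rw [h0] at this
    simp at this
  · left
    intro i
    by_contra hc
    push Not at hc
    have := h i0 i
    nlinarith

theorem mk_neg_eq (v : Fin 3 → ℝ) (hv : v ≠ 0) :
    Projectivization.mk ℝ (-v) (neg_ne_zero.2 hv) = Projectivization.mk ℝ v hv := by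
  rw [Projectivization.mk_eq_mk_iff']
  exact ⟨-1, by simp⟩

/-- every point of a cell has a representative in the open convex cone -/
theorem exists_rep_of_mem_cellIn {κ : Type} [Nonempty κ] (W : Submodule ℝ (Fin 3 → ℝ))
    (g : κ → Form) (v : Fin 3 → ℝ) (p : Plane) (hp : p ∈ cellIn W g v) :
    ∃ (u : Fin 3 → ℝ) (hu : u ≠ 0), p = Projectivization.mk ℝ u hu ∧ u ∈ W ∧
      ∀ i, 0 < g i v * g i u := by
  obtain ⟨h1, h2⟩ := hp
  rcases exists_sign (fun i => g i v * g i p.rep) h2 with h | h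
  · exact ⟨p.rep, p.rep_nonzero, (Projectivization.mk_rep p).symm, h1, h⟩
  · refine ⟨-p.rep, neg_ne_zero.2 p.rep_nonzero, ?_, W.neg_mem h1, fun i => ?_⟩
    · exact ((mk_neg_eq p.rep p.rep_nonzero).trans (Projectivization.mk_rep p)).symm
    · rw [map_neg]
      have := h i
      linarith

/-- the open convex cone of `v` -/
def cone {κ : Type} (W : Submodule ℝ (Fin 3 → ℝ)) (g : κ → Form) (v : Fin 3 → ℝ) :
    Set (Fin 3 → ℝ) := {u | u ∈ W ∧ ∀ i, 0 < g i v * g i u}

theorem convex_cone {κ : Type} (W : Submodule ℝ (Fin 3 → ℝ)) (g : κ → Form)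
    (v : Fin 3 → ℝ) : Convex ℝ (cone W g v) := by
  intro x hx y hy a b ha hb hab
  refine ⟨W.add_mem (W.smul_mem _ hx.1) (W.smul_mem _ hy.1), fun i => ?_⟩
  have h1 := hx.2 i
  have h2 := hy.2 i
  rw [map_add, map_smul, map_smul, smul_eq_mul, smul_eq_mul]
  have : g i v * (a * g i x + b * g i y) = a * (g i v * g i x) + b * (g i v * g i y) := by ring
  rw [this]
  rcases ha.lt_or_eq with ha | ha
  · have := mul_pos ha h1
    have := mul_nonneg hb h2.le
    linarith
  · subst ha
    have : b = 1 := by linarith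
    subst this
    simpa using h2

theorem ne_zero_of_mem_cone {κ : Type} [Nonempty κ] {W : Submodule ℝ (Fin 3 → ℝ)}
    {g : κ → Form} {v u : Fin 3 → ℝ} (h : u ∈ cone W g v) : u ≠ 0 := by
  rintro rfl
  obtain ⟨i⟩ := ‹Nonempty κ›
  have := h.2 i
  simp at this

theorem cellIn_eq_image {κ : Type} [Nonempty κ] (W : Submodule ℝ (Fin 3 → ℝ))
    (g : κ → Form) (v : Fin 3 → ℝ) :
    cellIn W g v = (Projectivization.mk' ℝ) '' {u : {v : Fin 3 → ℝ // v ≠ 0} | u.1 ∈ cone W g v}
    := by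
  ext p
  constructor
  · intro hp
    obtain ⟨u, hu, rfl, h1, h2⟩ := exists_rep_of_mem_cellIn W g v p hp
    exact ⟨⟨u, hu⟩, ⟨h1, h2⟩, rfl⟩
  · rintro ⟨u, hu, rfl⟩
    rw [Projectivization.mk'_eq_mk, mk_mem_cellIn]
    exact ⟨hu.1, fun i j => mul_pos (hu.2 i) (hu.2 j)⟩

theorem isPreconnected_cellIn {κ : Type} [Nonempty κ] (W : Submodule ℝ (Fin 3 → ℝ))
    (g : κ → Form) (v : Fin 3 → ℝ) : IsPreconnected (cellIn W g v) := by
  rw [cellIn_eq_image]
  apply IsPreconnected.image _ _ continuous_mk'.continuousOn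
  have : Subtype.val '' {u : {v : Fin 3 → ℝ // v ≠ 0} | u.1 ∈ cone W g v} = cone W g v := by
    ext u
    constructor
    · rintro ⟨u, hu, rfl⟩
      exact hu
    · intro hu
      exact ⟨⟨u, ne_zero_of_mem_cone hu⟩, hu, rfl⟩
  have h := (convex_cone W g v).isPreconnected
  rw [← this] at h
  exact Topology.IsInducing.subtypeVal.isPreconnected_image.1 h

/-- the region of the projectivised subspace `W` avoiding all the lines `g i = 0` -/
def region {κ : Type} (W : Submodule ℝ (Fin 3 → ℝ)) (g : κ → Form) : Set Plane :=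
  {p | p.rep ∈ W ∧ ∀ i, g i p.rep ≠ 0}

theorem mk_mem_region {κ : Type} (W : Submodule ℝ (Fin 3 → ℝ)) (g : κ → Form)
    (v : Fin 3 → ℝ) (hv : v ≠ 0) :
    Projectivization.mk ℝ v hv ∈ region W g ↔ v ∈ W ∧ ∀ i, g i v ≠ 0 := by
  unfold region
  simp only [mem_ofPred_eq, rep_mem_iff, ne_eq, form_rep_eq_zero_iff]

theorem component_eq_cellIn {κ : Type} [Nonempty κ] (W : Submodule ℝ (Fin 3 → ℝ))
    (g : κ → Form) (v : Fin 3 → ℝ) (hv : v ≠ 0) (hW : v ∈ W) (hg : ∀ i, g i v ≠ 0) :
    connectedComponentIn (region W g) (Projectivization.mk ℝ v hv) = cellIn W g v := by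
  have hmem : Projectivization.mk ℝ v hv ∈ region W g := by
    rw [mk_mem_region]
    exact ⟨hW, hg⟩
  apply Subset.antisymm
  · intro p hp
    have hpr : p ∈ region W g := connectedComponentIn_subset _ _ hp
    refine ⟨hpr.1, fun i j => ?_⟩
    have hc : g i v * g j v ≠ 0 := mul_ne_zero (hg i) (hg j)
    have hO1 : IsOpen {p : Plane | 0 < ((g i v * g j v) • g i) p.rep * g j p.rep} :=
      isOpen_pos _ _
    have hO2 : IsOpen {p : Plane | 0 < ((-(g i v * g j v)) • g i) p.rep * g j p.rep} :=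
      isOpen_pos _ _
    have hdis : Disjoint {p : Plane | 0 < ((g i v * g j v) • g i) p.rep * g j p.rep}
        {p : Plane | 0 < ((-(g i v * g j v)) • g i) p.rep * g j p.rep} := by
      rw [Set.disjoint_left]
      intro q hq1 hq2
      simp only [mem_ofPred_eq, LinearMap.smul_apply, smul_eq_mul] at hq1 hq2
      linarith
    have hcov : connectedComponentIn (region W g) (Projectivization.mk ℝ v hv) ⊆
        {p : Plane | 0 < ((g i v * g j v) • g i) p.rep * g j p.rep} ∪
        {p : Plane | 0 < ((-(g i v * g j v)) • g i) p.rep * g j p.rep} := by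
      intro q hq
      have hqr : q ∈ region W g := connectedComponentIn_subset _ _ hq
      have hne : (g i v * g j v) * (g i q.rep * g j q.rep) ≠ 0 :=
        mul_ne_zero hc (mul_ne_zero (hqr.2 i) (hqr.2 j))
      simp only [mem_union, mem_ofPred_eq, LinearMap.smul_apply, smul_eq_mul]
      rcases lt_or_gt_of_ne hne with h | h
      · right; linarith
      · left; linarith
    have hne : (connectedComponentIn (region W g) (Projectivization.mk ℝ v hv) ∩
        {p : Plane | 0 < ((g i v * g j v) • g i) p.rep * g j p.rep}).Nonempty := by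
      refine ⟨Projectivization.mk ℝ v hv, mem_connectedComponentIn hmem, ?_⟩
      simp only [mem_ofPred_eq]
      rw [pos_rep_iff]
      simp only [LinearMap.smul_apply, smul_eq_mul]
      have : g i v * g j v * g i v * g j v = (g i v * g j v) ^ 2 := by ring
      rw [this]
      positivity
    have := IsPreconnected.subset_left_of_subset_union hO1 hO2 hdis hcov hne
      isPreconnected_connectedComponentIn hp
    simp only [mem_ofPred_eq, LinearMap.smul_apply, smul_eq_mul] at this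
    calc (0 : ℝ) < g i v * g j v * g i p.rep * g j p.rep := this
      _ = _ := by ring
  · apply IsPreconnected.subset_connectedComponentIn (isPreconnected_cellIn W g v)
    · rw [mk_mem_cellIn]
      refine ⟨hW, fun i j => ?_⟩
      have h1 : 0 < g i v * g i v := mul_self_pos.2 (hg i)
      have h2 : 0 < g j v * g j v := mul_self_pos.2 (hg j)
      exact mul_pos h1 h2
    · intro p hp
      refine ⟨hp.1, fun i h0 => ?_⟩
      have := hp.2 i i
      rw [h0] at this
      simp at this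

end Pool.Agent.U285.LA
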