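import Pool.Agent.U285.LA.Sides

/-!
# The upper bound: two faces have at most four common bounding lines
-/

namespace Pool.Agent.U285.LA

open Set

variable {ι : Type} {A : Finset (Set Plane)} {f : ι → Form}

/-- no three of the lines are concurrent -/
def SimpleForms (f : ι → Form) : Prop :=
  ∀ i j k, i ≠ j → i ≠ k → j ≠ k → ∀ v : Fin 3 → ℝ, f i v = 0 → f j v = 0 → f k v = 0 → v = 0

theorem Pres.simpleForms (h : Pres A f) (hs : IsSimple A) : SimpleForms f := by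
  intro i j k hij hik hjk v hi hj hk
  by_contra hv
  have := hs _ ((h.mem _).2 ⟨i, rfl⟩) _ ((h.mem _).2 ⟨j, rfl⟩) _ ((h.mem _).2 ⟨k, rfl⟩)
    (fun e => hij (h.inj e)) (fun e => hik (h.inj e)) (fun e => hjk (h.inj e))
  have hm : Projectivization.mk ℝ v hv ∈ lineOf (f i) ∩ lineOf (f j) ∩ lineOf (f k) :=
    ⟨⟨(mk_mem_lineOf _ _ _).2 hi, (mk_mem_lineOf _ _ _).2 hj⟩, (mk_mem_lineOf _ _ _).2 hk⟩
  rw [this] at hm
  exact hm

theorem exists_coeff (φ₁ φ₂ φ₃ G : Form)
    (h : ∀ v : Fin 3 → ℝ, φ₁ v = 0 → φ₂ v = 0 → φ₃ v = 0 → v = 0) :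
    ∃ a b c : ℝ, ∀ v, G v = a * φ₁ v + b * φ₂ v + c * φ₃ v := by
  let Φ : (Fin 3 → ℝ) →ₗ[ℝ] (Fin 3 → ℝ) := LinearMap.pi ![φ₁, φ₂, φ₃]
  have hΦ0 : ∀ v, Φ v 0 = φ₁ v := fun v => rfl
  have hΦ1 : ∀ v, Φ v 1 = φ₂ v := fun v => rfl
  have hΦ2 : ∀ v, Φ v 2 = φ₃ v := fun v => rfl
  have hinj : Function.Injective Φ := by
    rw [← LinearMap.ker_eq_bot, LinearMap.ker_eq_bot']
    intro v hv
    exact h v (by rw [← hΦ0, hv]; rfl) (by rw [← hΦ1, hv]; rfl) (by rw [← hΦ2, hv]; rfl)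
  have hsurj : Function.Surjective Φ := LinearMap.injective_iff_surjective.1 hinj
  obtain ⟨E1, hE1⟩ := hsurj ![1, 0, 0]
  obtain ⟨E2, hE2⟩ := hsurj ![0, 1, 0]
  obtain ⟨E3, hE3⟩ := hsurj ![0, 0, 1]
  refine ⟨G E1, G E2, G E3, fun v => ?_⟩
  have hv : v = φ₁ v • E1 + φ₂ v • E2 + φ₃ v • E3 := by
    apply hinj
    rw [map_add, map_add, map_smul, map_smul, map_smul, hE1, hE2, hE3]
    ext i
    fin_cases i
    · simp [hΦ0]
    · simp [hΦ1]
    · simp [hΦ2]
  calc G v = G (φ₁ v • E1 + φ₂ v • E2 + φ₃ v • E3) := by rw [← hv]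
    _ = _ := by
      rw [map_add, map_add, map_smul, map_smul, map_smul, smul_eq_mul, smul_eq_mul, smul_eq_mul]
      ring

theorem sign_aux {b c x y x' y' : ℝ} (hx : 0 < x) (hy : 0 < y) (hx' : 0 < x') (hy' : 0 < y')
    (h1 : 0 < b * x + c * y) (h2 : b * x' + c * y' < 0) : b * c < 0 := by
  by_contra hc
  push Not at hc
  rcases mul_nonneg_iff.1 hc with ⟨hb, hc⟩ | ⟨hb, hc⟩
  · have := mul_nonneg hb hx'.le
    have := mul_nonneg hc hy'.le
    linarith
  · have := mul_nonpos_of_nonpos_of_nonneg hb hx.le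
    have := mul_nonpos_of_nonpos_of_nonneg hc hy.le
    linarith

theorem no_three (hs : SimpleForms f) {v v' : Fin 3 → ℝ} (m : ι)
    (hm : f m v * f m v' < 0) {l₁ l₂ l₃ : ι} (h12 : l₁ ≠ l₂) (h13 : l₁ ≠ l₃) (h23 : l₂ ≠ l₃)
    (h1 : l₁ ∈ facets f v) (h2 : l₂ ∈ facets f v) (h3 : l₃ ∈ facets f v)
    (h1' : l₁ ∈ facets f v') (h2' : l₂ ∈ facets f v') (h3' : l₃ ∈ facets f v')
    (p1 : 0 < f l₁ v * f l₁ v') (p2 : 0 < f l₂ v * f l₂ v') (p3 : 0 < f l₃ v * f l₃ v') :
    False := by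
  obtain ⟨w1, hw1, k1⟩ := h1
  obtain ⟨w2, hw2, k2⟩ := h2
  obtain ⟨w3, hw3, k3⟩ := h3
  obtain ⟨w1', hw1', k1'⟩ := h1'
  obtain ⟨w2', hw2', k2'⟩ := h2'
  obtain ⟨w3', hw3', k3'⟩ := h3'
  have n1 : f l₁ v ≠ 0 := by rintro h; rw [h] at p1; simp at p1
  have n2 : f l₂ v ≠ 0 := by rintro h; rw [h] at p2; simp at p2
  have n3 : f l₃ v ≠ 0 := by rintro h; rw [h] at p3; simp at p3
  obtain ⟨a, b, c, habc⟩ := exists_coeff (f l₁ v • f l₁) (f l₂ v • f l₂) (f l₃ v • f l₃)
    (f m v • f m) (by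
      intro u e1 e2 e3
      simp only [LinearMap.smul_apply, smul_eq_mul, mul_eq_zero] at e1 e2 e3
      exact hs l₁ l₂ l₃ h12 h13 h23 u (e1.resolve_left n1) (e2.resolve_left n2)
        (e3.resolve_left n3))
  simp only [LinearMap.smul_apply, smul_eq_mul] at habc
  -- transfer positivity from `v'` to `v`
  have tr : ∀ (l : ι) (u : Fin 3 → ℝ), 0 < f l v * f l v' → 0 < f l v' * f l u →
      0 < f l v * f l u := by
    intro l u q1 q2
    have q3 : 0 < (f l v * f l u) * (f l v') ^ 2 := by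
      have := mul_pos q1 q2
      calc 0 < f l v * f l v' * (f l v' * f l u) := this
        _ = _ := by ring
    exact (pos_iff_pos_of_mul_pos q3).2 (by
      have : f l v' ≠ 0 := by rintro h; rw [h] at q2; simp at q2
      positivity)
  have trm : ∀ u : Fin 3 → ℝ, 0 < f m v' * f m u → f m v * f m u < 0 := by
    intro u q
    by_contra hc
    push Not at hc
    have e : (f m v * f m v') * (f m v' * f m u) = (f m v * f m u) * (f m v') ^ 2 := by ring
    have h1 := mul_neg_of_neg_of_pos hm q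
    have h2 : 0 ≤ (f m v * f m u) * (f m v') ^ 2 := mul_nonneg hc (sq_nonneg _)
    linarith
  have m1 : m ≠ l₁ := by rintro rfl; linarith
  have m2 : m ≠ l₂ := by rintro rfl; linarith
  have m3 : m ≠ l₃ := by rintro rfl; linarith
  have hbc : b * c < 0 := by
    apply sign_aux (k1 l₂ h12.symm) (k1 l₃ h13.symm) (tr l₂ w1' p2 (k1' l₂ h12.symm))
      (tr l₃ w1' p3 (k1' l₃ h13.symm))
    · have := k1 m m1
      rw [habc w1, hw1] at this
      linarith
    · have := trm w1' (k1' m m1)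
      rw [habc w1', hw1'] at this
      linarith
  have hac : a * c < 0 := by
    apply sign_aux (k2 l₁ h12) (k2 l₃ h23.symm) (tr l₁ w2' p1 (k2' l₁ h12))
      (tr l₃ w2' p3 (k2' l₃ h23.symm))
    · have := k2 m m2
      rw [habc w2, hw2] at this
      linarith
    · have := trm w2' (k2' m m2)
      rw [habc w2', hw2'] at this
      linarith
  have hab : a * b < 0 := by
    apply sign_aux (k3 l₁ h13) (k3 l₂ h23) (tr l₁ w3' p1 (k3' l₁ h13))
      (tr l₂ w3' p2 (k3' l₂ h23))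
    · have := k3 m m3
      rw [habc w3, hw3] at this
      linarith
    · have := trm w3' (k3' m m3)
      rw [habc w3', hw3'] at this
      linarith
  have h4 : 0 < (b * c) * (a * c) := mul_pos_of_neg_of_neg hbc hac
  have h5 : (b * c) * (a * c) = (a * b) * c ^ 2 := by ring
  have h6 : (a * b) * c ^ 2 ≤ 0 := mul_nonpos_of_nonpos_of_nonneg hab.le (sq_nonneg _)
  linarith

theorem facets_neg (f : ι → Form) (v : Fin 3 → ℝ) : facets f (-v) = facets f v := by
  ext l
  constructor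
  · rintro ⟨w, h1, h2⟩
    refine ⟨-w, by rw [map_neg, h1, neg_zero], fun i hi => ?_⟩
    have := h2 i hi
    rw [map_neg] at this ⊢
    linarith
  · rintro ⟨w, h1, h2⟩
    refine ⟨-w, by rw [map_neg, h1, neg_zero], fun i hi => ?_⟩
    have := h2 i hi
    rw [map_neg, map_neg]
    linarith

theorem card_same_le [Finite ι] (hs : SimpleForms f) {v v' : Fin 3 → ℝ}
    (hm : ∃ m, f m v * f m v' < 0) :
    {l | l ∈ facets f v ∧ l ∈ facets f v' ∧ 0 < f l v * f l v'}.ncard ≤ 2 := by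
  by_contra hc
  push Not at hc
  obtain ⟨m, hm⟩ := hm
  obtain ⟨a, b, c, ha, hb, hcc, hab, hac, hbc⟩ := (Set.two_lt_ncard_iff (Set.toFinite _)).1 hc
  exact no_three hs m hm hab hac hbc ha.1 hb.1 hcc.1 ha.2.1 hb.2.1 hcc.2.1 ha.2.2 hb.2.2 hcc.2.2

theorem card_common_le [Finite ι] [Nonempty ι] (hs : SimpleForms f) {v v' : Fin 3 → ℝ}
    (hv' : v' ≠ 0) (hfv : ∀ i, f i v ≠ 0) (hfv' : ∀ i, f i v' ≠ 0)
    (hne : cellIn ⊤ f v ≠ cellIn ⊤ f v') : (facets f v ∩ facets f v').ncard ≤ 4 := by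
  have hneg : ∃ m, f m v * f m v' < 0 := by
    by_contra hc
    push Not at hc
    apply hne
    rw [cell_eq_iff f v v' hv' hfv']
    intro i j
    exact mul_pos (lt_of_le_of_ne (hc i) (mul_ne_zero (hfv i) (hfv' i)).symm)
      (lt_of_le_of_ne (hc j) (mul_ne_zero (hfv j) (hfv' j)).symm)
  have hpos : ∃ m, f m v * f m (-v') < 0 := by
    by_contra hc
    push Not at hc
    apply hne
    rw [cell_eq_iff f v v' hv' hfv']
    intro i j
    have h1 := hc i
    have h2 := hc j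
    rw [map_neg] at h1 h2
    exact mul_pos_of_neg_of_neg (lt_of_le_of_ne (by linarith) (mul_ne_zero (hfv i) (hfv' i)))
      (lt_of_le_of_ne (by linarith) (mul_ne_zero (hfv j) (hfv' j)))
  have h1 := card_same_le hs hneg
  have h2 := card_same_le hs hpos
  have hsub : facets f v ∩ facets f v' ⊆
      {l | l ∈ facets f v ∧ l ∈ facets f v' ∧ 0 < f l v * f l v'} ∪
      {l | l ∈ facets f v ∧ l ∈ facets f (-v') ∧ 0 < f l v * f l (-v')} := by
    rintro l ⟨hl, hl'⟩
    rcases lt_or_gt_of_ne (mul_ne_zero (hfv l) (hfv' l)) with h | h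
    · right
      refine ⟨hl, by rwa [facets_neg], ?_⟩
      rw [map_neg]
      linarith
    · left
      exact ⟨hl, hl', h⟩
  calc (facets f v ∩ facets f v').ncard ≤ _ := Set.ncard_le_ncard hsub (Set.toFinite _)
    _ ≤ _ := Set.ncard_union_le _ _
    _ ≤ 2 + 2 := add_le_add h1 h2

theorem count [Fintype ι] [DecidableEq ι] (k : ℕ) (L : Fin k → Finset ι)
    (h : ∀ i j, i ≠ j → (L i ∩ L j).card ≤ 4) :
    (∑ i, ((L i).card : ℤ)) - (Fintype.card ι : ℤ) ≤ 2 * k * (k - 1) := by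
  let χ : Fin k → ι → ℤ := fun i l => if l ∈ L i then 1 else 0
  have h1 : ∀ i, ((L i).card : ℤ) = ∑ l, χ i l := by
    intro i
    simp [χ]
  have h2 : ∀ i j, ((L i ∩ L j).card : ℤ) = ∑ l, χ i l * χ j l := by
    intro i j
    have : ∀ l, χ i l * χ j l = if l ∈ L i ∩ L j then 1 else 0 := by
      intro l
      simp only [χ, Finset.mem_inter]
      by_cases ha : l ∈ L i <;> by_cases hb : l ∈ L j <;> simp [ha, hb]
    simp_rw [this]
    rw [Finset.sum_ite_mem, Finset.univ_inter, Finset.sum_const, nsmul_eq_mul, mul_one]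
  have h3 : ∀ l, 3 * (∑ i, χ i l) - 2 ≤ (∑ i, χ i l) ^ 2 := by
    intro l
    generalize (∑ i, χ i l) = m
    rcases le_or_gt m 1 with hm | hm
    · nlinarith
    · have : 2 ≤ m := hm
      nlinarith
  have h4 : ∑ l, (∑ i, χ i l) ^ 2 = ∑ i, ∑ j, ((L i ∩ L j).card : ℤ) := by
    simp_rw [h2, sq, Finset.sum_mul_sum]
    rw [Finset.sum_comm]
    refine Finset.sum_congr rfl fun i _ => ?_
    rw [Finset.sum_comm]
  have h5 : ∀ i : Fin k, ∑ j, ((L i ∩ L j).card : ℤ) ≤ (L i).card + 4 * ((k : ℤ) - 1) := by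
    intro i
    rw [← Finset.add_sum_erase _ _ (Finset.mem_univ i), Finset.inter_self]
    have : ∑ j ∈ Finset.univ.erase i, ((L i ∩ L j).card : ℤ) ≤
        ∑ j ∈ Finset.univ.erase i, (4 : ℤ) := by
      apply Finset.sum_le_sum
      intro j hj
      have := h i j (Finset.ne_of_mem_erase hj).symm
      exact_mod_cast this
    rw [Finset.sum_const, Finset.card_erase_of_mem (Finset.mem_univ i), Finset.card_univ,
      Fintype.card_fin, nsmul_eq_mul] at this
    have hk : 1 ≤ k := by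
      have := i.2
      omega
    push_cast [Nat.cast_sub hk] at this
    linarith
  have h6 : ∑ l : ι, (3 * (∑ i, χ i l) - 2) ≤ ∑ l, (∑ i, χ i l) ^ 2 :=
    Finset.sum_le_sum fun l _ => h3 l
  rw [h4, Finset.sum_sub_distrib, ← Finset.mul_sum, Finset.sum_comm] at h6
  simp_rw [← h1] at h6
  have h7 : ∑ i : Fin k, ∑ j, ((L i ∩ L j).card : ℤ) ≤
      ∑ i : Fin k, (((L i).card : ℤ) + 4 * ((k : ℤ) - 1)) := Finset.sum_le_sum fun i _ => h5 i
  rw [Finset.sum_add_distrib, Finset.sum_const, Finset.card_univ, Fintype.card_fin,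
    nsmul_eq_mul] at h7
  rw [Finset.sum_const, Finset.card_univ, nsmul_eq_mul] at h6
  nlinarith

/-- Every arrangement has a presentation by linear forms. -/
theorem exists_pres (hA : IsArrangement A) :
    ∃ f : {L // L ∈ A} → Form, Pres A f := by
  have h : ∀ L : {L // L ∈ A}, ∃ φ : Form, φ ≠ 0 ∧ L.1 = lineOf φ := fun L => hA.isLine L.1 L.2
  choose f hf using h
  refine ⟨f, fun L => (hf L).1, fun L M he => ?_, fun L => ⟨fun hL => ⟨⟨L, hL⟩, (hf ⟨L, hL⟩).2⟩, ?_⟩⟩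
  · apply Subtype.ext
    rw [(hf L).2, (hf M).2]
    exact he
  · rintro ⟨i, rfl⟩
    rw [← (hf i).2]
    exact i.2

theorem upper_bound (k : ℕ) (hA : IsArrangement A) (hs : IsSimple A)
    (F : Fin k → Set Plane) (hF : Function.Injective F) (hface : ∀ i, IsFace A (F i)) :
    (∑ i, (sides A (F i) : ℤ)) - (A.card : ℤ) ≤ 2 * k * (k - 1) := by
  classical
  obtain ⟨f, hf⟩ := exists_pres hA
  have hcard : Fintype.card {L // L ∈ A} = A.card := Fintype.card_coe A
  have hnt : Nontrivial {L // L ∈ A} := by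
    rw [← Fintype.one_lt_card_iff_nontrivial, hcard]
    have := hA.three_le
    omega
  have hsf := hf.simpleForms hs
  have h := fun i => (hf.isFace_iff (F i)).1 (hface i)
  choose v hv hfv hFv using h
  have hsides : ∀ i, sides A (F i) = (facets f (v i)).toFinset.card := by
    intro i
    rw [hFv i, hf.sides_eq (v i) (hfv i), Set.ncard_eq_toFinset_card']
  simp_rw [hsides]
  rw [← hcard]
  apply count
  intro i j hij
  have hne : cellIn ⊤ f (v i) ≠ cellIn ⊤ f (v j) := by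
    rw [← hFv i, ← hFv j]
    exact fun he => hij (hF he)
  have := card_common_le hsf (hv j) (hfv i) (hfv j) hne
  rw [Set.ncard_eq_toFinset_card', Set.toFinset_inter] at this
  exact this

end Pool.Agent.U285.LA
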